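import Pool.Agent.H44.P5.Defs

/-! Row P5A: geometry near th0.  lam0 = lam w y0, D0 = DD w y0, A0 = AA w y0, B0 = BB w y0, x0 = A0/D0.
* p5a_basic.  Words: 0 <= lp, lp+1 <= lq, 1 <= rp <= rq (sba_pos).  y0 in [1/3,2/3]:
  D0 >= (lq+rq)/3 >= 2/3, A0 >= rp/3 >= 1/3, B0 = (lq-lp)(1-y0) + (rq-rp) y0 >= 1/3, A0 + B0 = D0.
  lam0 = D0 sqrt(A0 B0) >= D0/3 (so D0 <= 3 lam0) and >= 2/9.  |lq - rq| <= lq + rq <= 3 D0: |del| <= 3.
  cos th0 = 1 - 2 x0 (x0 in [0,1], Real.cos_arccos), sin th0 = sqrt(1-(1-2x0)^2) = 2 sqrt(x0(1-x0)) = 2 sqrt(A0 B0)/D0,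
  so D0^2 sin th0 = 2 lam0; th0 in (0,pi) as sin th0 > 0; sin th0 = 2 lam0/D0^2 >= 2/(9 lam0).
* p5a_U.  U(th0+s) = D0^2 (cos th0 - cos(th0+s))/2 = lam0 sin s + (D0^2 cos th0/2)(1 - cos s)   (Complex.cos_add).
* p5a_v.  t = lam0 |s| <= 1/1000, so |s| <= 9t/2 <= 1.  |1-cos s| <= |s|^2, |sin s - s| <= |s|^2 (both from
  Complex.norm_exp_sub_one_sub_id_le applied to i s and -i s).  |D0^2 cos th0/2| <= 9 lam0^2/2, lam0 <= 9 lam0^2/2, so
  |U - lam0 s| <= 9 t^2; |U| <= t + 9t^2 <= 1.01 t; |1 + del U| >= 1 - 3.03 t > 0.99; v - U = - del U^2/(1+del U):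
  |v - U| <= 3 (1.01 t)^2/0.99 <= 4 t^2.  Total |v - lam0 s| <= 13 t^2.
* p5a_diff: quotient of entire functions with nonvanishing denominator on the ball. -/

open MeasureTheory Set Polynomial
open scoped ENNReal ComplexConjugate

namespace Pool.H52.MQ

private theorem P5A_all (w : List Bool) {y0 : ℝ} (hy : y0 ∈ Icc (1 / 3 : ℝ) (2 / 3)) :
    2 / 3 ≤ DD w y0 ∧ 1 / 3 ≤ AA w y0 ∧ 1 / 3 ≤ BB w y0 ∧ AA w y0 + BB w y0 = DD w y0 ∧
    1 / 3 ≤ √(AA w y0 * BB w y0) ∧ √(AA w y0 * BB w y0) ≤ DD w y0 / 2 ∧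
    ((lq w : ℝ) + rq w) ≤ 3 * DD w y0 := by
  obtain ⟨p1, p2, p3, p4, p5⟩ := sba_pos w
  have q1 : (1 : ℝ) ≤ lq w := by exact_mod_cast p1
  have q2 : (1 : ℝ) ≤ rq w := by exact_mod_cast p2
  have q3 : (lp w : ℝ) + 1 ≤ lq w := by exact_mod_cast p3
  have q4 : (1 : ℝ) ≤ rp w := by exact_mod_cast p4
  have q5 : (rp w : ℝ) ≤ rq w := by exact_mod_cast p5
  have q6 : (0 : ℝ) ≤ lp w := Nat.cast_nonneg _
  obtain ⟨y1, y2⟩ := hy
  have h1 : ((lq w : ℝ) + rq w) ≤ 3 * DD w y0 := by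
    unfold DD
    nlinarith [mul_nonneg (show (0:ℝ) ≤ lq w by linarith) (show 0 ≤ 2 / 3 - y0 by linarith),
      mul_nonneg (show (0:ℝ) ≤ rq w by linarith) (show 0 ≤ y0 - 1 / 3 by linarith)]
  have hA : 1 / 3 ≤ AA w y0 := by
    unfold AA
    nlinarith [mul_nonneg q6 (show 0 ≤ 1 - y0 by linarith),
      mul_nonneg (show (0:ℝ) ≤ rp w - 1 by linarith) (show 0 ≤ y0 by linarith)]
  have hB : 1 / 3 ≤ BB w y0 := by
    unfold BB DD AA
    nlinarith [mul_nonneg (show (0:ℝ) ≤ lq w - lp w - 1 by linarith) (show 0 ≤ 1 - y0 by linarith),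
      mul_nonneg (show (0:ℝ) ≤ rq w - rp w by linarith) (show 0 ≤ y0 by linarith)]
  have hs : AA w y0 + BB w y0 = DD w y0 := by unfold BB; ring
  refine ⟨by linarith, hA, hB, hs, ?_, ?_, h1⟩
  · apply Real.le_sqrt_of_sq_le
    nlinarith
  · rw [← hs]
    apply Real.sqrt_le_iff.2
    constructor
    · linarith
    · nlinarith [sq_nonneg (AA w y0 - BB w y0)]

theorem p5a_basic (w : List Bool) {y0 : ℝ} (hy : y0 ∈ Icc (1 / 3 : ℝ) (2 / 3)) :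
    2 / 3 ≤ DD w y0 ∧ 1 / 3 ≤ AA w y0 ∧ 1 / 3 ≤ BB w y0 ∧ 2 / 9 ≤ lam w y0 ∧
    DD w y0 ≤ 3 * lam w y0 ∧ lam w y0 ≤ DD w y0 ^ 2 / 2 ∧ |p5d w y0| ≤ 3 := by
  obtain ⟨hD, hA, hB, hs, hr, hr2, hl⟩ := P5A_all w hy
  have hlam : lam w y0 = DD w y0 * √(AA w y0 * BB w y0) := rfl
  have q1 : (0 : ℝ) ≤ lq w := Nat.cast_nonneg _
  have q2 : (0 : ℝ) ≤ rq w := Nat.cast_nonneg _
  have hDp : 0 < DD w y0 := by linarith
  refine ⟨hD, hA, hB, ?_, ?_, ?_, ?_⟩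
  · rw [hlam]
    nlinarith [mul_le_mul hD hr (by norm_num) hDp.le]
  · rw [hlam]
    nlinarith [mul_le_mul_of_nonneg_left hr hDp.le]
  · rw [hlam]
    nlinarith [mul_le_mul_of_nonneg_left hr2 hDp.le]
  · unfold p5d
    rw [abs_div, abs_of_pos hDp, div_le_iff₀ hDp, abs_le]
    constructor <;> linarith

theorem p5a_th (w : List Bool) {y0 : ℝ} (hy : y0 ∈ Icc (1 / 3 : ℝ) (2 / 3)) :
    0 < p5t w y0 ∧ p5t w y0 < Real.pi ∧ Real.cos (p5t w y0) = 1 - 2 * gam w y0 ∧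
    DD w y0 ^ 2 * Real.sin (p5t w y0) = 2 * lam w y0 ∧ 2 / (9 * lam w y0) ≤ Real.sin (p5t w y0) := by
  obtain ⟨hD, hA, hB, hs, hr, hr2, hl⟩ := P5A_all w hy
  obtain ⟨-, -, -, b4, b5, b6, -⟩ := p5a_basic w hy
  have hDp : 0 < DD w y0 := by linarith
  have hlam : lam w y0 = DD w y0 * √(AA w y0 * BB w y0) := rfl
  have hg : gam w y0 = AA w y0 / DD w y0 := rfl
  have hg0 : 0 ≤ gam w y0 := by rw [hg]; positivity
  have hg1 : gam w y0 ≤ 1 := by rw [hg, div_le_one hDp]; linarith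
  have hcos : Real.cos (p5t w y0) = 1 - 2 * gam w y0 := by
    unfold p5t
    exact Real.cos_arccos (by linarith) (by linarith)
  have hsq : DD w y0 ^ 2 * Real.sin (p5t w y0) = 2 * lam w y0 := by
    unfold p5t
    rw [Real.sin_arccos]
    have e1 : 1 - (1 - 2 * gam w y0) ^ 2 = (2 / DD w y0) ^ 2 * (AA w y0 * BB w y0) := by
      have e2 : BB w y0 = DD w y0 - AA w y0 := rfl
      rw [hg, e2]
      field_simp
      ring
    rw [e1, Real.sqrt_mul (by positivity), Real.sqrt_sq (by positivity), hlam]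
    field_simp
  have hlp : 0 < lam w y0 := by linarith
  have hsin : 0 < Real.sin (p5t w y0) := by
    have h1 : 0 < DD w y0 ^ 2 * Real.sin (p5t w y0) := by rw [hsq]; linarith
    exact (pos_iff_pos_of_mul_pos h1).1 (by positivity)
  have t0 : 0 ≤ p5t w y0 := Real.arccos_nonneg _
  have t1 : p5t w y0 ≤ Real.pi := Real.arccos_le_pi _
  refine ⟨?_, ?_, hcos, hsq, ?_⟩
  · rcases t0.eq_or_lt with h | h
    · rw [← h, Real.sin_zero] at hsin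
      exact absurd hsin (lt_irrefl _)
    · exact h
  · rcases t1.eq_or_lt with h | h
    · rw [h, Real.sin_pi] at hsin
      exact absurd hsin (lt_irrefl _)
    · exact h
  · rw [div_le_iff₀ (by positivity)]
    have h2 : DD w y0 ^ 2 ≤ 9 * lam w y0 ^ 2 := by nlinarith
    have h3 : 2 * lam w y0 ≤ 9 * lam w y0 ^ 2 * Real.sin (p5t w y0) := by
      rw [← hsq]
      exact mul_le_mul_of_nonneg_right h2 hsin.le
    nlinarith

theorem p5a_U (w : List Bool) {y0 : ℝ} (hy : y0 ∈ Icc (1 / 3 : ℝ) (2 / 3)) (s : ℂ) :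
    p5U w y0 ((p5t w y0 : ℂ) + s) = (lam w y0 : ℂ) * Complex.sin s +
      ((DD w y0 ^ 2 * Real.cos (p5t w y0) / 2 : ℝ) : ℂ) * (1 - Complex.cos s) := by
  obtain ⟨-, -, hcos, hsin, -⟩ := p5a_th w hy
  have h1 : (gam w y0 : ℂ) = (1 - Complex.cos (p5t w y0 : ℂ)) / 2 := by
    have : gam w y0 = (1 - Real.cos (p5t w y0)) / 2 := by rw [hcos]; ring
    rw [this]
    push_cast
    ring
  have h2 : (lam w y0 : ℂ) = (DD w y0 : ℂ) ^ 2 * Complex.sin (p5t w y0 : ℂ) / 2 := by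
    have : lam w y0 = DD w y0 ^ 2 * Real.sin (p5t w y0) / 2 := by rw [hsin]; ring
    rw [this]
    push_cast
    ring
  unfold p5U
  rw [h1, h2, Complex.cos_add]
  push_cast
  ring

private theorem P5A_exp {s : ℂ} (hs : ‖s‖ ≤ 1) :
    ‖Complex.sin s - s‖ ≤ ‖s‖ ^ 2 ∧ ‖1 - Complex.cos s‖ ≤ ‖s‖ ^ 2 := by
  have n1 : ‖s * Complex.I‖ = ‖s‖ := by rw [norm_mul, Complex.norm_I, mul_one]
  have n2 : ‖-s * Complex.I‖ = ‖s‖ := by rw [norm_mul, Complex.norm_I, mul_one, norm_neg]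
  have e1 := Complex.norm_exp_sub_one_sub_id_le (x := s * Complex.I) (by rw [n1]; exact hs)
  have e2 := Complex.norm_exp_sub_one_sub_id_le (x := -s * Complex.I) (by rw [n2]; exact hs)
  rw [n1] at e1
  rw [n2] at e2
  constructor
  · have : Complex.sin s - s = ((Complex.exp (-s * Complex.I) - 1 - -s * Complex.I) -
        (Complex.exp (s * Complex.I) - 1 - s * Complex.I)) * (Complex.I / 2) := by
      rw [Complex.sin]
      linear_combination (-s) * (Complex.I_sq)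
    rw [this, norm_mul, norm_div, Complex.norm_I]
    have h3 := norm_sub_le (Complex.exp (-s * Complex.I) - 1 - -s * Complex.I)
        (Complex.exp (s * Complex.I) - 1 - s * Complex.I)
    have h4 : ‖(2:ℂ)‖ = 2 := by norm_num
    rw [h4]
    linarith
  · have : 1 - Complex.cos s = ((Complex.exp (-s * Complex.I) - 1 - -s * Complex.I) +
        (Complex.exp (s * Complex.I) - 1 - s * Complex.I)) * (-1 / 2) := by
      rw [Complex.cos]
      ring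
    rw [this, norm_mul]
    have h3 := norm_add_le (Complex.exp (-s * Complex.I) - 1 - -s * Complex.I)
        (Complex.exp (s * Complex.I) - 1 - s * Complex.I)
    have h4 : ‖(-1 / 2:ℂ)‖ = 1 / 2 := by
      rw [norm_div, norm_neg, norm_one]; norm_num
    rw [h4]
    linarith

theorem p5a_v (w : List Bool) {y0 : ℝ} (hy : y0 ∈ Icc (1 / 3 : ℝ) (2 / 3)) {s : ℂ}
    (hs : lam w y0 * ‖s‖ ≤ 1 / 1000) :
    ‖p5v w y0 ((p5t w y0 : ℂ) + s) - (lam w y0 : ℂ) * s‖ ≤ 13 * (lam w y0 * ‖s‖) ^ 2 ∧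
    1 / 2 ≤ ‖1 + (p5d w y0 : ℂ) * p5U w y0 ((p5t w y0 : ℂ) + s)‖ := by
  obtain ⟨hD, hA, hB, hl, hDl, hlD, hd⟩ := p5a_basic w hy
  obtain ⟨t, ht⟩ : ∃ t, t = lam w y0 * ‖s‖ := ⟨_, rfl⟩
  rw [← ht] at hs
  have hlp : 0 < lam w y0 := by linarith
  have hn0 : 0 ≤ ‖s‖ := norm_nonneg s
  have ht0 : 0 ≤ t := by rw [ht]; positivity
  have hst : ‖s‖ ≤ 9 / 2 * t := by
    rw [ht]
    nlinarith [mul_le_mul_of_nonneg_right hl hn0]
  have hs1 : ‖s‖ ≤ 1 := by linarith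
  obtain ⟨g1, g2⟩ := P5A_exp hs1
  obtain ⟨U, hU⟩ : ∃ U, U = p5U w y0 ((p5t w y0 : ℂ) + s) := ⟨_, rfl⟩
  have hv : p5v w y0 ((p5t w y0 : ℂ) + s) = U / (1 + (p5d w y0 : ℂ) * U) := by
    rw [hU]; rfl
  rw [← hU, ← ht, hv]
  have hUe := p5a_U w hy s
  rw [← hU] at hUe
  -- `|U - lam s| ≤ 9 t^2`
  have h1 : ‖U - (lam w y0 : ℂ) * s‖ ≤ 9 * t ^ 2 := by
    have e : U - (lam w y0 : ℂ) * s = (lam w y0 : ℂ) * (Complex.sin s - s) +
        ((DD w y0 ^ 2 * Real.cos (p5t w y0) / 2 : ℝ) : ℂ) * (1 - Complex.cos s) := by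
      rw [hUe]; ring
    rw [e]
    refine (norm_add_le _ _).trans ?_
    rw [norm_mul, norm_mul, Complex.norm_real, Complex.norm_real, Real.norm_eq_abs,
      Real.norm_eq_abs, abs_of_pos hlp]
    have hc : |DD w y0 ^ 2 * Real.cos (p5t w y0) / 2| ≤ 9 / 2 * lam w y0 ^ 2 := by
      rw [abs_div, abs_mul, abs_of_nonneg (sq_nonneg (DD w y0)), abs_two]
      have h3 := Real.abs_cos_le_one (p5t w y0)
      have h4 : DD w y0 ^ 2 ≤ 9 * lam w y0 ^ 2 := by nlinarith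
      have h5 : DD w y0 ^ 2 * |Real.cos (p5t w y0)| ≤ 9 * lam w y0 ^ 2 * 1 :=
        mul_le_mul h4 h3 (abs_nonneg _) (by positivity)
      linarith
    have hc2 : lam w y0 ≤ 9 / 2 * lam w y0 ^ 2 := by nlinarith
    have i1 : lam w y0 * ‖Complex.sin s - s‖ ≤ 9 / 2 * lam w y0 ^ 2 * ‖s‖ ^ 2 :=
      mul_le_mul hc2 g1 (norm_nonneg _) (by positivity)
    have i2 : |DD w y0 ^ 2 * Real.cos (p5t w y0) / 2| * ‖1 - Complex.cos s‖ ≤
        9 / 2 * lam w y0 ^ 2 * ‖s‖ ^ 2 := mul_le_mul hc g2 (norm_nonneg _) (by positivity)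
    rw [ht]
    nlinarith
  have h2 : ‖(lam w y0 : ℂ) * s‖ = t := by
    rw [norm_mul, Complex.norm_real, Real.norm_eq_abs, abs_of_pos hlp, ht]
  have h3 : ‖U‖ ≤ 101 / 100 * t := by
    have e : U = (U - (lam w y0 : ℂ) * s) + (lam w y0 : ℂ) * s := by ring
    have h4 : ‖U‖ ≤ ‖U - (lam w y0 : ℂ) * s‖ + ‖(lam w y0 : ℂ) * s‖ := by
      conv_lhs => rw [e]
      exact norm_add_le _ _
    rw [h2] at h4
    nlinarith
  have h4 : ‖(p5d w y0 : ℂ) * U‖ ≤ 303 / 100 * t := by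
    rw [norm_mul, Complex.norm_real, Real.norm_eq_abs]
    have := mul_le_mul hd h3 (norm_nonneg U) (by norm_num)
    linarith
  have h5 : 99 / 100 ≤ ‖1 + (p5d w y0 : ℂ) * U‖ := by
    have h6 := norm_sub_norm_le (1 : ℂ) (-((p5d w y0 : ℂ) * U))
    rw [norm_neg, norm_one, sub_neg_eq_add] at h6
    linarith
  refine ⟨?_, by linarith⟩
  have hne : 1 + (p5d w y0 : ℂ) * U ≠ 0 := by
    intro h
    rw [h, norm_zero] at h5
    linarith
  have h6 : ‖U / (1 + (p5d w y0 : ℂ) * U) - U‖ ≤ 4 * t ^ 2 := by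
    have e : U / (1 + (p5d w y0 : ℂ) * U) - U =
        -(((p5d w y0 : ℂ) * U) * U) / (1 + (p5d w y0 : ℂ) * U) := by
      rw [div_sub' hne]
      congr 1
      ring
    rw [e, norm_div, norm_neg, norm_mul, div_le_iff₀ (by linarith)]
    have h7 : ‖(p5d w y0 : ℂ) * U‖ * ‖U‖ ≤ 303 / 100 * t * (101 / 100 * t) :=
      mul_le_mul h4 h3 (norm_nonneg U) (by positivity)
    have h8 : 4 * t ^ 2 * (99 / 100) ≤ 4 * t ^ 2 * ‖1 + (p5d w y0 : ℂ) * U‖ :=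
      mul_le_mul_of_nonneg_left h5 (by positivity)
    nlinarith
  calc ‖U / (1 + (p5d w y0 : ℂ) * U) - (lam w y0 : ℂ) * s‖
      = ‖(U / (1 + (p5d w y0 : ℂ) * U) - U) + (U - (lam w y0 : ℂ) * s)‖ := by
        congr 1; ring
    _ ≤ ‖U / (1 + (p5d w y0 : ℂ) * U) - U‖ + ‖U - (lam w y0 : ℂ) * s‖ := norm_add_le _ _
    _ ≤ 4 * t ^ 2 + 9 * t ^ 2 := add_le_add h6 h1
    _ = 13 * t ^ 2 := by ring

theorem p5a_diff (w : List Bool) {y0 : ℝ} (hy : y0 ∈ Icc (1 / 3 : ℝ) (2 / 3)) :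
    DifferentiableOn ℂ (p5v w y0)
      (Metric.ball (p5t w y0 : ℂ) (1 / (1000 * lam w y0))) := by
  obtain ⟨hD, hA, hB, hl, hDl, hlD, hd⟩ := p5a_basic w hy
  have hlp : 0 < lam w y0 := by linarith
  have hU : Differentiable ℂ (p5U w y0) := by
    unfold p5U
    exact (((Complex.differentiable_cos.const_sub 1).div_const 2).sub_const _).const_mul _
  have hv : p5v w y0 = fun ζ => p5U w y0 ζ / (1 + (p5d w y0 : ℂ) * p5U w y0 ζ) := rfl
  rw [hv]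
  refine hU.differentiableOn.div (((hU.const_mul _).const_add 1).differentiableOn) ?_
  intro z hz
  rw [mem_ball_iff_norm] at hz
  have h1 : lam w y0 * ‖z - (p5t w y0 : ℂ)‖ ≤ 1 / 1000 := by
    have h2 := mul_le_mul_of_nonneg_left hz.le hlp.le
    have h3 : lam w y0 * (1 / (1000 * lam w y0)) = 1 / 1000 := by field_simp
    rw [h3] at h2
    exact h2
  have h4 := (p5a_v w hy h1).2
  rw [add_sub_cancel] at h4
  intro h5
  rw [h5, norm_zero] at h4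
  norm_num at h4

end Pool.H52.MQ
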