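import Pool.Agent.H44.P5.A

/-! Row P5B: imaginary part of y = y0 + v(th0+s), real Moebius identities.  Uses P5A.
t = lam0 |s| <= 1/1000, tau = Im s, X = (1 - cos(th0+s))/2, Dy = D0 + (rq-lq) v (= DD at the complex point y).
* p5b_gam: Dy (1 + del U) = D0, and (A0 + (rp-lp) v) = Dy * X: since v = U/(1+del U), del = (lq-rq)/D0:
  Dy = D0 (1 + del U + (rq-lq)/D0 U)/(1+del U) = D0/(1+del U);  A0 (1+del U) + (rp-lp) U = D0 X as (rp-lp) D0 - (rq-lq) A0 = 1 (sba_det), U = D0^2 (X - A0/D0).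
* p5b_im: |Im v| <= (1+20t) lam0 |tau|.  Im y = |Dy|^2 Im X:  X = Ay/Dy, Im(Ay conj Dy) = Im y * ((rp-lp) D0 - (rq-lq) A0) = Im y (write Ay = A0+(rp-lp)v, Dy = D0+(rq-lq)v).
  |Im X| = |sin(th0 + Re s)| sinh|tau|/2 (Complex.cos_add / cos of x+iy), |sin(th0+Re s)| <= sin th0 + |s|, D0^2 (sin th0+|s|) <= 2 lam0 + 9 lam0^2|s| = 2 lam0 (1+4.5t),
  |Dy| <= D0 + 3 D0 |v| <= D0 (1+3.1t) (|v| <= t+13t^2), sinh|tau| <= |tau|(1+tau^2) for |tau| <= 1, tau^2 <= (4.5t)^2 <= t/10.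
  Product: (1+4.5t)(1+3.1t)^2(1+t/10) <= 1+20t for t <= 1/1000.
* p5b_abs: |y|+|1-y| <= 1 + (Im y)^2/(2u(1-u)), u = Re y (sqrt(u^2+v^2) <= u + v^2/(2u), u in (0,1)); |u-y0| <= t+13t^2 <= 1.1t, y0(1-y0) >= 2/9, so
  u(1-u) >= y0(1-y0)(1-3t): y0(1-y0) + (u-y0)(1-2y0) - (u-y0)^2 >= y0(1-y0) - 1.1t/3 - (1.1t)^2;  (1+20t)^2/(1-3t) <= 1+60t for t <= 1/1000. -/

open MeasureTheory Set Polynomial
open scoped ENNReal ComplexConjugate

namespace Pool.H52.MQ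

private theorem P5B_alg {D A a b d U X v : ℂ} (hD : D ≠ 0) (h : 1 + d * U ≠ 0)
    (hv : v = U / (1 + d * U)) (hd : d * D = -b) (hdet : a * D - b * A = 1)
    (hU : U = D ^ 2 * (X - A / D)) :
    (D + b * v) * (1 + d * U) = D ∧ A + a * v = (D + b * v) * X := by
  have hv' : v * (1 + d * U) = U := by rw [hv, div_mul_cancel₀ _ h]
  have hU' : U = D ^ 2 * X - D * A := by
    rw [hU]
    field_simp
  have e1 : (D + b * v) * (1 + d * U) = D := by linear_combination b * hv' + U * hd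
  refine ⟨e1, ?_⟩
  apply mul_right_cancel₀ h
  apply mul_left_cancel₀ hD
  linear_combination D * a * hv' + A * U * hd - D * X * e1 + U * hdet + hU'

private theorem P5B_det (w : List Bool) (y : ℝ) :
    ((rp w : ℝ) - lp w) * DD w y - ((rq w : ℝ) - lq w) * AA w y = 1 := by
  have h : (rp w : ℝ) * lq w = lp w * rq w + 1 := by exact_mod_cast sba_det w
  unfold DD AA
  linear_combination h

theorem p5b_gam (w : List Bool) {y0 : ℝ} (hy : y0 ∈ Icc (1 / 3 : ℝ) (2 / 3)) {ζ : ℂ}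
    (h : 1 + (p5d w y0 : ℂ) * p5U w y0 ζ ≠ 0) :
    ((DD w y0 : ℂ) + ((rq w : ℂ) - lq w) * p5v w y0 ζ) * (1 + (p5d w y0 : ℂ) * p5U w y0 ζ) = (DD w y0 : ℂ) ∧
    (AA w y0 : ℂ) + ((rp w : ℂ) - lp w) * p5v w y0 ζ =
      ((DD w y0 : ℂ) + ((rq w : ℂ) - lq w) * p5v w y0 ζ) * ((1 - Complex.cos ζ) / 2) := by
  obtain ⟨b1, b2, b3, b4, b5, b6, b7⟩ := p5a_basic w hy
  have hD : (DD w y0 : ℂ) ≠ 0 := by
    rw [Complex.ofReal_ne_zero]
    linarith
  have hdet : ((rp w : ℂ) - lp w) * (DD w y0 : ℂ) - ((rq w : ℂ) - lq w) * (AA w y0 : ℂ) = 1 := by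
    exact_mod_cast congrArg (fun x : ℝ => (x : ℂ)) (P5B_det w y0)
  apply P5B_alg hD h rfl ?_ hdet ?_
  · unfold p5d
    push_cast
    rw [div_mul_cancel₀ _ hD]
    ring
  · unfold p5U gam
    push_cast
    ring

private theorem P5B_imv {D A a b : ℝ} {v X : ℂ} (hdet : a * D - b * A = 1)
    (h : (A : ℂ) + a * v = (D + b * v) * X) : v.im = ‖(D : ℂ) + b * v‖ ^ 2 * X.im := by
  have h1 := congrArg Complex.re h
  have h2 := congrArg Complex.im h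
  simp only [Complex.add_re, Complex.add_im, Complex.mul_re, Complex.mul_im, Complex.ofReal_re,
    Complex.ofReal_im, zero_mul, add_zero, sub_zero, zero_add] at h1 h2
  rw [Complex.sq_norm, Complex.normSq_apply]
  simp only [Complex.add_re, Complex.add_im, Complex.mul_re, Complex.mul_im, Complex.ofReal_re,
    Complex.ofReal_im, zero_mul, add_zero, sub_zero, zero_add]
  linear_combination (D + b * v.re) * h2 - b * v.im * h1 - v.im * hdet

private theorem P5B_cos (x : ℝ) (s : ℂ) :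
    ((1 - Complex.cos ((x : ℂ) + s)) / 2).im = Real.sin (x + s.re) * Real.sinh s.im / 2 := by
  have e : (x : ℂ) + s = ((x + s.re : ℝ) : ℂ) + (s.im : ℝ) * Complex.I := by
    rw [Complex.ofReal_add, add_assoc, Complex.re_add_im]
  rw [e, Complex.cos_add_mul_I, ← Complex.ofReal_cos, ← Complex.ofReal_sin, ← Complex.ofReal_cosh,
    ← Complex.ofReal_sinh]
  have e2 : (1 - (((Real.cos (x + s.re) : ℝ) : ℂ) * ((Real.cosh s.im : ℝ) : ℂ) -
      ((Real.sin (x + s.re) : ℝ) : ℂ) * ((Real.sinh s.im : ℝ) : ℂ) * Complex.I)) / 2 =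
      (((1 - Real.cos (x + s.re) * Real.cosh s.im) / 2 : ℝ) : ℂ) +
        ((Real.sin (x + s.re) * Real.sinh s.im / 2 : ℝ) : ℂ) * Complex.I := by
    push_cast
    ring
  rw [e2, Complex.add_im, Complex.ofReal_im, Complex.mul_I_im, Complex.ofReal_re, zero_add]

private theorem P5B_sinh {y : ℝ} (hy : |y| ≤ 1) : |Real.sinh y| ≤ |y| * (1 + |y|) := by
  have h1 := abs_le.1 (Real.abs_exp_sub_one_sub_id_le hy)
  have h2 := abs_le.1 (Real.abs_exp_sub_one_sub_id_le (x := -y) (by rwa [abs_neg]))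
  rw [neg_sq] at h2
  have h3 : |Real.sinh y - y| ≤ |y| ^ 2 := by
    rw [sq_abs, Real.sinh_eq, abs_le]
    constructor <;> linarith [h1.1, h1.2, h2.1, h2.2]
  have h4 : |Real.sinh y| ≤ |Real.sinh y - y| + |y| := by
    have := abs_add_le (Real.sinh y - y) y
    rwa [sub_add_cancel] at this
  nlinarith

private theorem P5B_sin (x y : ℝ) (hx : 0 ≤ Real.sin x) : |Real.sin (x + y)| ≤ Real.sin x + |y| := by
  have h1 := Real.abs_sin_sub_sin_le (x + y) x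
  rw [add_sub_cancel_left] at h1
  have h2 : |Real.sin (x + y)| ≤ |Real.sin (x + y) - Real.sin x| + |Real.sin x| := by
    have := abs_add_le (Real.sin (x + y) - Real.sin x) (Real.sin x)
    rwa [sub_add_cancel] at this
  rw [abs_of_nonneg hx] at h2
  linarith

/-- size of `v` and of the denominator -/
private theorem P5B_size (w : List Bool) {y0 : ℝ} (hy : y0 ∈ Icc (1 / 3 : ℝ) (2 / 3)) {s : ℂ}
    (hs : lam w y0 * ‖s‖ ≤ 1 / 1000) :
    ‖p5v w y0 ((p5t w y0 : ℂ) + s)‖ ≤ 1.013 * (lam w y0 * ‖s‖) ∧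
    ‖(DD w y0 : ℂ) + (((rq w : ℝ) - lq w : ℝ) : ℂ) * p5v w y0 ((p5t w y0 : ℂ) + s)‖ ≤
      DD w y0 * (1 + 3.04 * (lam w y0 * ‖s‖)) := by
  obtain ⟨b1, b2, b3, b4, b5, b6, b7⟩ := p5a_basic w hy
  have hv := (p5a_v w hy hs).1
  have hD : 0 < DD w y0 := by linarith
  have hb : |(rq w : ℝ) - lq w| ≤ 3 * DD w y0 := by
    unfold p5d at b7
    rw [abs_div, abs_of_pos hD, div_le_iff₀ hD] at b7
    rwa [abs_sub_comm]
  have hL : ‖(lam w y0 : ℂ) * s‖ = lam w y0 * ‖s‖ := by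
    rw [norm_mul, Complex.norm_real, Real.norm_of_nonneg (by linarith)]
  have ht : 0 ≤ lam w y0 * ‖s‖ := mul_nonneg (by linarith) (norm_nonneg _)
  generalize p5v w y0 ((p5t w y0 : ℂ) + s) = v at *
  generalize lam w y0 * ‖s‖ = t at *
  have h1 : ‖v‖ ≤ 1.013 * t := by
    have h2 : ‖v‖ ≤ ‖v - (lam w y0 : ℂ) * s‖ + ‖(lam w y0 : ℂ) * s‖ := by
      have := norm_add_le (v - (lam w y0 : ℂ) * s) ((lam w y0 : ℂ) * s)
      rwa [sub_add_cancel] at this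
    rw [hL] at h2
    nlinarith
  refine ⟨h1, ?_⟩
  refine (norm_add_le _ _).trans ?_
  rw [norm_mul, Complex.norm_real, Complex.norm_real, Real.norm_eq_abs, Real.norm_eq_abs,
    abs_of_pos hD]
  have h3 : |(rq w : ℝ) - lq w| * ‖v‖ ≤ 3 * DD w y0 * (1.013 * t) :=
    mul_le_mul hb h1 (norm_nonneg _) (by linarith)
  have h4 : 0 ≤ DD w y0 * t := mul_nonneg hD.le ht
  linarith

theorem p5b_im (w : List Bool) {y0 : ℝ} (hy : y0 ∈ Icc (1 / 3 : ℝ) (2 / 3)) {s : ℂ}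
    (hs : lam w y0 * ‖s‖ ≤ 1 / 1000) :
    |(p5v w y0 ((p5t w y0 : ℂ) + s)).im| ≤ (1 + 20 * (lam w y0 * ‖s‖)) * (lam w y0 * |s.im|) := by
  obtain ⟨b1, b2, b3, b4, b5, b6, b7⟩ := p5a_basic w hy
  obtain ⟨t1, t2, t3, t4, t5⟩ := p5a_th w hy
  have hne : 1 + (p5d w y0 : ℂ) * p5U w y0 ((p5t w y0 : ℂ) + s) ≠ 0 := by
    intro h
    have := (p5a_v w hy hs).2
    rw [h, norm_zero] at this
    linarith
  have hg := (p5b_gam w hy hne).2
  have hdet := P5B_det w y0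
  have hg' : (AA w y0 : ℂ) + (((rp w : ℝ) - lp w : ℝ) : ℂ) * p5v w y0 ((p5t w y0 : ℂ) + s) =
      ((DD w y0 : ℂ) + (((rq w : ℝ) - lq w : ℝ) : ℂ) * p5v w y0 ((p5t w y0 : ℂ) + s)) *
        ((1 - Complex.cos ((p5t w y0 : ℂ) + s)) / 2) := by
    push_cast
    exact hg
  have him := P5B_imv hdet hg'
  obtain ⟨s1, s2⟩ := P5B_size w hy hs
  rw [him, P5B_cos, abs_mul, abs_of_nonneg (sq_nonneg _), abs_div, abs_mul, abs_two]
  have ht : 0 ≤ lam w y0 * ‖s‖ := mul_nonneg (by linarith) (norm_nonneg _)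
  have hsn : ‖s‖ ≤ 4.5 * (lam w y0 * ‖s‖) := by
    have := norm_nonneg s
    nlinarith
  have him' : |s.im| ≤ ‖s‖ := Complex.abs_im_le_norm s
  have hre' : |s.re| ≤ ‖s‖ := Complex.abs_re_le_norm s
  have h1 := P5B_sinh (y := s.im) (by linarith)
  have h2 := P5B_sin (p5t w y0) s.re (by
    have : 0 < 2 / (9 * lam w y0) := by
      apply div_pos
      · norm_num
      · linarith
    linarith)
  have hn := norm_nonneg ((DD w y0 : ℂ) + (((rq w : ℝ) - lq w : ℝ) : ℂ) *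
    p5v w y0 ((p5t w y0 : ℂ) + s))
  have hLs : lam w y0 * ‖s‖ = lam w y0 * ‖s‖ := rfl
  generalize ‖(DD w y0 : ℂ) + (((rq w : ℝ) - lq w : ℝ) : ℂ) * p5v w y0 ((p5t w y0 : ℂ) + s)‖ = n at *
  clear him hg hg' hne
  have k2 : DD w y0 ^ 2 * |Real.sin (p5t w y0 + s.re)| ≤
      2 * lam w y0 * (1 + 4.5 * (lam w y0 * ‖s‖)) := by
    have q1 : DD w y0 ^ 2 ≤ 9 * lam w y0 ^ 2 := by nlinarith
    have q2 : DD w y0 ^ 2 * |Real.sin (p5t w y0 + s.re)| ≤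
        DD w y0 ^ 2 * (Real.sin (p5t w y0) + ‖s‖) :=
      mul_le_mul_of_nonneg_left (by linarith) (sq_nonneg _)
    have q3 : DD w y0 ^ 2 * ‖s‖ ≤ 9 * lam w y0 ^ 2 * ‖s‖ :=
      mul_le_mul_of_nonneg_right q1 (norm_nonneg _)
    have q4 : 9 * lam w y0 ^ 2 * ‖s‖ = 9 * lam w y0 * (lam w y0 * ‖s‖) := by ring
    linarith
  have hA := abs_nonneg (Real.sin (p5t w y0 + s.re))
  have hB := abs_nonneg (Real.sinh s.im)
  have ha := abs_nonneg s.im
  generalize |Real.sin (p5t w y0 + s.re)| = A at *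
  generalize |Real.sinh s.im| = B at *
  generalize |s.im| = a at *
  generalize lam w y0 * ‖s‖ = t at *
  have k3 : B ≤ a * (1 + 4.5 * t) :=
    h1.trans (mul_le_mul_of_nonneg_left (by linarith) ha)
  have k1 : n ^ 2 ≤ DD w y0 ^ 2 * (1 + 6.1 * t) := by
    calc n ^ 2 ≤ (DD w y0 * (1 + 3.04 * t)) ^ 2 := pow_le_pow_left₀ hn s2 2
      _ = DD w y0 ^ 2 * (1 + 3.04 * t) ^ 2 := by ring
      _ ≤ DD w y0 ^ 2 * (1 + 6.1 * t) :=
        mul_le_mul_of_nonneg_left (by nlinarith) (sq_nonneg _)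
  have hL : 0 ≤ lam w y0 := by linarith
  have k4 : (1 + 6.1 * t) * (1 + 4.5 * t) ^ 2 ≤ 1 + 20 * t := by
    have q1 : (1 + 4.5 * t) ^ 2 ≤ 1 + 9.1 * t := by nlinarith
    have q2 : (1 + 6.1 * t) * (1 + 4.5 * t) ^ 2 ≤ (1 + 6.1 * t) * (1 + 9.1 * t) :=
      mul_le_mul_of_nonneg_left q1 (by linarith)
    nlinarith
  calc n ^ 2 * (A * B / 2) ≤ DD w y0 ^ 2 * (1 + 6.1 * t) * (A * B / 2) :=
        mul_le_mul_of_nonneg_right k1 (by positivity)
    _ = (1 + 6.1 * t) / 2 * (DD w y0 ^ 2 * A * B) := by ring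
    _ ≤ (1 + 6.1 * t) / 2 * (2 * lam w y0 * (1 + 4.5 * t) * (a * (1 + 4.5 * t))) := by
        apply mul_le_mul_of_nonneg_left _ (by linarith)
        exact mul_le_mul k2 k3 hB (mul_nonneg (by linarith) (by linarith))
    _ = (1 + 6.1 * t) * (1 + 4.5 * t) ^ 2 * (lam w y0 * a) := by ring
    _ ≤ (1 + 20 * t) * (lam w y0 * a) := mul_le_mul_of_nonneg_right k4 (mul_nonneg hL ha)

private theorem P5B_abs {z : ℂ} (h0 : 0 < z.re) (h1 : z.re < 1) :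
    ‖z‖ + ‖1 - z‖ ≤ 1 + z.im ^ 2 / (2 * (z.re * (1 - z.re))) := by
  have key : ∀ u v : ℝ, 0 < u → ∀ z : ℂ, z.re = u → z.im = v → ‖z‖ ≤ u + v ^ 2 / (2 * u) := by
    intro u v hu z hz1 hz2
    have h2 : 0 ≤ u + v ^ 2 / (2 * u) := by positivity
    rw [← sq_le_sq₀ (norm_nonneg _) h2, Complex.sq_norm, Complex.normSq_apply, hz1, hz2]
    have h3 : (u + v ^ 2 / (2 * u)) ^ 2 = u * u + v * v + (v ^ 2 / (2 * u)) ^ 2 := by
      have hu' : u ≠ 0 := hu.ne'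
      field_simp
      ring
    rw [h3]
    have := sq_nonneg (v ^ 2 / (2 * u))
    linarith
  have h2 := key z.re z.im h0 z rfl rfl
  have h3 := key (1 - z.re) (-z.im) (by linarith) (1 - z) (by simp) (by simp)
  have h4 : z.re + z.im ^ 2 / (2 * z.re) + ((1 - z.re) + (-z.im) ^ 2 / (2 * (1 - z.re))) =
      1 + z.im ^ 2 / (2 * (z.re * (1 - z.re))) := by
    have e1 : z.re ≠ 0 := h0.ne'
    have e2 : 1 - z.re ≠ 0 := by linarith
    field_simp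
    ring
  linarith

theorem p5b_abs (w : List Bool) {y0 : ℝ} (hy : y0 ∈ Icc (1 / 3 : ℝ) (2 / 3)) {s : ℂ}
    (hs : lam w y0 * ‖s‖ ≤ 1 / 1000) :
    ‖(y0 : ℂ) + p5v w y0 ((p5t w y0 : ℂ) + s)‖ + ‖1 - ((y0 : ℂ) + p5v w y0 ((p5t w y0 : ℂ) + s))‖ ≤
      1 + (1 + 60 * (lam w y0 * ‖s‖)) * (lam w y0 * s.im) ^ 2 / (2 * (y0 * (1 - y0))) := by
  obtain ⟨b1, b2, b3, b4, b5, b6, b7⟩ := p5a_basic w hy
  have him := p5b_im w hy hs
  obtain ⟨s1, s2⟩ := P5B_size w hy hs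
  clear s2
  have ht : 0 ≤ lam w y0 * ‖s‖ := mul_nonneg (by linarith) (norm_nonneg _)
  have hL : lam w y0 * |s.im| = |lam w y0 * s.im| := by
    rw [abs_mul, abs_of_nonneg (by linarith : 0 ≤ lam w y0)]
  rw [hL] at him
  have hre := (Complex.abs_re_le_norm (p5v w y0 ((p5t w y0 : ℂ) + s))).trans s1
  generalize p5v w y0 ((p5t w y0 : ℂ) + s) = v at *
  generalize lam w y0 * ‖s‖ = t at *
  generalize lam w y0 * s.im = L at *
  have hre2 := abs_le.1 hre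
  have hy1 := hy.1
  have hy2 := hy.2
  have e1 : ((y0 : ℂ) + v).re = y0 + v.re := by simp
  have e2 : ((y0 : ℂ) + v).im = v.im := by simp
  have h1 := P5B_abs (z := (y0 : ℂ) + v) (by rw [e1]; linarith [hre2.1]) (by
    rw [e1]; linarith [hre2.2])
  rw [e1, e2] at h1
  refine h1.trans ?_
  have hv2 : v.im ^ 2 ≤ (1 + 20 * t) ^ 2 * L ^ 2 := by
    rw [← sq_abs v.im, ← sq_abs L, ← mul_pow]
    exact pow_le_pow_left₀ (abs_nonneg _) him 2
  have hq : 0 < y0 * (1 - y0) := mul_pos (by linarith) (by linarith)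
  have hq2 : 2 / 9 ≤ y0 * (1 - y0) := by nlinarith
  have hu : y0 * (1 - y0) * (1 - 1.6 * t) ≤ (y0 + v.re) * (1 - (y0 + v.re)) := by
    have h3 : |v.re * (1 - 2 * y0)| ≤ 1.013 * t * (1 / 3) := by
      rw [abs_mul]
      apply mul_le_mul hre _ (abs_nonneg _) (by linarith)
      rw [abs_le]
      constructor <;> linarith
    have h4 := (abs_le.1 h3).1
    have h5 : v.re ^ 2 ≤ (1.013 * t) ^ 2 := by
      rw [← sq_abs]
      exact pow_le_pow_left₀ (abs_nonneg _) hre 2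
    nlinarith
  have hu0 : 0 < y0 * (1 - y0) * (1 - 1.6 * t) := mul_pos hq (by linarith)
  have hL2 : 0 ≤ L ^ 2 := sq_nonneg _
  have h6 : v.im ^ 2 / (2 * ((y0 + v.re) * (1 - (y0 + v.re)))) ≤
      (1 + 20 * t) ^ 2 * L ^ 2 / (2 * (y0 * (1 - y0) * (1 - 1.6 * t))) :=
    div_le_div₀ (by positivity) hv2 (by linarith) (by linarith)
  have h7 : (1 + 20 * t) ^ 2 * L ^ 2 / (2 * (y0 * (1 - y0) * (1 - 1.6 * t))) ≤
      (1 + 60 * t) * L ^ 2 / (2 * (y0 * (1 - y0))) := by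
    rw [div_le_div_iff₀ (by linarith) (by linarith)]
    have h8 : (1 + 20 * t) ^ 2 ≤ (1 + 60 * t) * (1 - 1.6 * t) := by nlinarith
    have h9 := mul_le_mul_of_nonneg_left h8 (mul_nonneg hL2 hq.le)
    nlinarith
  linarith

end Pool.H52.MQ
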