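import Pool.Agent.H52.MQ.SBA

/-! Block P5 (transfer lemma) of project MP_935a4b_QM, block PI helper44: definitions.
w a word, y0 in [1/3,2/3]; D0 = DD w y0, x0 = gam w y0 = (1 - cos th0)/2; x = (1 - cos zeta)/2,
U = D0^2 (x - x0), v = U/(1 + del U), y = y0 + v: this is the inverse Moebius map of gam w at x. -/

open MeasureTheory Set Polynomial
open scoped ENNReal ComplexConjugate

namespace Pool.H52.MQ

noncomputable section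

/-- th0 -/
def p5t (w : List Bool) (y0 : ℝ) : ℝ := Real.arccos (1 - 2 * gam w y0)

/-- del -/
def p5d (w : List Bool) (y0 : ℝ) : ℝ := ((lq w : ℝ) - rq w) / DD w y0

def p5U (w : List Bool) (y0 : ℝ) (ζ : ℂ) : ℂ :=
  (DD w y0 : ℂ) ^ 2 * ((1 - Complex.cos ζ) / 2 - (gam w y0 : ℂ))

def p5v (w : List Bool) (y0 : ℝ) (ζ : ℂ) : ℂ := p5U w y0 ζ / (1 + (p5d w y0 : ℂ) * p5U w y0 ζ)

/-- complex version of zz -/
def zc (y : ℂ) : ℂ := 2 * y - 1 + 2 * Complex.I * (y * (1 - y)) ^ (1 / 2 : ℂ)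

/-- gauged polynomial near the interval -/
def p5G (m : ℕ) (f : ℂ[X]) (y : ℂ) : ℂ := zc y ^ (-((m : ℤ) - 1)) * f.eval (zc y ^ 2)

def p5F (w : List Bool) (y0 : ℝ) (m r : ℕ) (f : ℂ[X]) (ζ : ℂ) : ℂ :=
  p5G m f ((y0 : ℂ) + p5v w y0 ζ) * (1 - p5v w y0 ζ ^ 2) ^ r

/-- truncated kernel -/
def p5K (n : ℕ) (θ : ℝ) (φ : ℂ) : ℂ :=
  2 + 4 * ∑ k ∈ Finset.Ico 1 n, (Real.cos (k * θ) : ℂ) * Complex.cos (k * φ)

/-- Fourier truncation of the sharp window of radius S about t0 -/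
def p5S (F : ℂ → ℂ) (t0 S : ℝ) (n : ℕ) (θ : ℝ) : ℂ :=
  (1 / (2 * Real.pi) : ℂ) * ∫ φ in (t0 - S)..(t0 + S), F φ * p5K n θ φ

end

end Pool.H52.MQ
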