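import Pool.Agent.H44.P5.Defs

/-! Row P5K: the kernel.  Mathlib only.  For real th write c_k = cos(k th).
* p5k_lower / p5k_upper: algebraic identity, induction on n >= 1.  With u = exp(-i zeta) (resp. exp(i zeta)), cos zeta - i sin zeta = exp(-i zeta), 2 cos zeta = u + 1/u,
  c_{n+1} + c_{n-1} = 2 cos th c_n (Real.cos_add etc., (n+1)th).
  Case n = 1: (-i sin zeta + cos zeta - cos th)/(cos th - cos zeta) = (cos th - u)/(cos zeta - cos th).
  Step: multiply out by cos zeta - cos th: - 2 c_n u^n (cos zeta - cos th) + u^(n-1)(c_n - u c_{n-1}) = u^n (c_{n+1} - u c_n), use 2 u cos zeta = u^2 + 1.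
* p5k_split: p5K n th = E_- + E_+ (2 cos(k phi) = e^{ik phi} + e^{-ik phi}).
* p5k_rem: |u| = exp(Im zeta) for u = exp(-i zeta): |u^(n-1)(c_n - u c_{n-1})| <= e^{(n-1) Im zeta} (1+|u|) <= 2 e^{(n-1) Im zeta} for Im zeta <= 0.
* p5k_low: |cos zeta - cos th| = 2 |sin((zeta-th)/2)| |sin((zeta+th)/2)| (Complex.cos_sub_cos), |sin(a+ib)|^2 = sin(a)^2 + sinh(b)^2 >= sin(a)^2, and >= (4/pi^2)(a^2+b^2) if |a| <= pi/2
  (Real.mul_le_sin: 2/pi*x <= sin x on [0,pi/2]).  zeta = t0 + s, |s| = S <= t0/2, S <= (pi-t0)/2, th in [0,pi], | |th-t0| - S | >= S/4: |zeta - th| >= S/4 (triangle inequality), so the first sine has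
  modulus >= (2/pi)(S/8) = S/(4pi).  Second: a' = (Re zeta + th)/2, a' >= Re zeta/2 >= t0/4, pi - a' >= (pi - Re zeta)/2 >= (pi-t0)/4; sin a' >= (2/pi) min(a', pi-a')
  >= (1/(2pi)) min(t0, pi-t0) >= sin t0/(2pi).  Total >= S sin t0/(4 pi^2) >= S sin t0/40. -/

open MeasureTheory Set Polynomial
open scoped ENNReal ComplexConjugate

namespace Pool.H52.MQ

noncomputable section

def p5Em (n : ℕ) (θ : ℝ) (ζ : ℂ) : ℂ :=
  1 + 2 * ∑ k ∈ Finset.Ico 1 n, (Real.cos (k * θ) : ℂ) * Complex.exp (-(k * ζ * Complex.I))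

def p5Ep (n : ℕ) (θ : ℝ) (ζ : ℂ) : ℂ :=
  1 + 2 * ∑ k ∈ Finset.Ico 1 n, (Real.cos (k * θ) : ℂ) * Complex.exp (k * ζ * Complex.I)

end

theorem p5k_split (n : ℕ) (θ : ℝ) (φ : ℂ) : p5K n θ φ = p5Em n θ φ + p5Ep n θ φ := by
  unfold p5K p5Em p5Ep
  have h1 : ∑ k ∈ Finset.Ico 1 n, (Real.cos (k * θ) : ℂ) * Complex.cos (k * φ) =
      (∑ k ∈ Finset.Ico 1 n, (Real.cos (k * θ) : ℂ) * Complex.exp (-(k * φ * Complex.I)) +
        ∑ k ∈ Finset.Ico 1 n, (Real.cos (k * θ) : ℂ) * Complex.exp (k * φ * Complex.I)) / 2 := by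
    rw [← Finset.sum_add_distrib, Finset.sum_div]
    refine Finset.sum_congr rfl fun k _ => ?_
    rw [Complex.cos, neg_mul]
    ring
  rw [h1]
  ring

/-- the recursion for cosines -/
theorem p5k_cos (n : ℕ) (θ : ℝ) :
    (Real.cos ((n + 1 + 1 : ℝ) * θ) : ℂ) =
      2 * (Real.cos θ : ℂ) * (Real.cos ((n + 1 : ℝ) * θ) : ℂ) - (Real.cos ((n : ℝ) * θ) : ℂ) := by
  have h1 : Real.cos ((n + 1 + 1 : ℝ) * θ) =
      2 * Real.cos θ * Real.cos ((n + 1 : ℝ) * θ) - Real.cos ((n : ℝ) * θ) := by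
    have h2 : (n + 1 + 1 : ℝ) * θ = (n + 1 : ℝ) * θ + θ := by ring
    have h3 : (n : ℝ) * θ = (n + 1 : ℝ) * θ - θ := by ring
    rw [h2, h3, Real.cos_add, Real.cos_sub]
    ring
  rw [h1]
  push_cast
  ring

theorem p5k_alg (θ : ℝ) {u C : ℂ} (h : 2 * u * C = u ^ 2 + 1) (n : ℕ) :
    -(u - C) - (1 + 2 * ∑ k ∈ Finset.Ico 1 (n + 1), (Real.cos (k * θ) : ℂ) * u ^ k) *
      (C - (Real.cos θ : ℂ)) =
    u ^ n * ((Real.cos ((n + 1 : ℝ) * θ) : ℂ) - u * (Real.cos ((n : ℝ) * θ) : ℂ)) := by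
  induction n with
  | zero =>
    simp
  | succ n ih =>
    rw [Finset.sum_Ico_succ_top (by omega : 1 ≤ n + 1)]
    have h1 := p5k_cos n θ
    push_cast at h1 ih ⊢
    rw [h1]
    have h2 : u ^ (n + 1) = u ^ n * u := pow_succ u n
    linear_combination ih - u ^ n * Complex.cos ((n + 1) * θ) * h +
      2 * Complex.cos ((n + 1) * θ) * (Complex.cos θ - C) * h2 - 2 * Complex.cos θ *
        Complex.cos ((n + 1) * θ) * h2 + (u * Complex.cos ((n + 1) * θ) + Complex.cos (n * θ)) * h2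

theorem p5k_main (θ : ℝ) {u C : ℂ} (h : 2 * u * C = u ^ 2 + 1) (hC : C ≠ (Real.cos θ : ℂ)) (n : ℕ) :
    (u - C) / ((Real.cos θ : ℂ) - C) -
      (1 + 2 * ∑ k ∈ Finset.Ico 1 (n + 1), (Real.cos (k * θ) : ℂ) * u ^ k) =
    u ^ n * ((Real.cos ((n + 1 : ℝ) * θ) : ℂ) - u * (Real.cos ((n : ℝ) * θ) : ℂ)) /
      (C - (Real.cos θ : ℂ)) := by
  have h1 : C - (Real.cos θ : ℂ) ≠ 0 := sub_ne_zero.2 hC
  have h2 : (Real.cos θ : ℂ) - C ≠ 0 := sub_ne_zero.2 hC.symm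
  rw [← p5k_alg θ h n, eq_div_iff h1, sub_mul]
  congr 1
  rw [div_mul_eq_mul_div, div_eq_iff h2]
  ring

theorem p5k_lower {n : ℕ} (hn : 1 ≤ n) (θ : ℝ) {ζ : ℂ} (h : Complex.cos ζ ≠ (Real.cos θ : ℂ)) :
    -Complex.I * Complex.sin ζ / ((Real.cos θ : ℂ) - Complex.cos ζ) - p5Em n θ ζ =
      Complex.exp (-(ζ * Complex.I)) ^ (n - 1) * ((Real.cos (n * θ) : ℂ) -
        Complex.exp (-(ζ * Complex.I)) * (Real.cos ((n - 1 : ℝ) * θ) : ℂ)) /
        (Complex.cos ζ - (Real.cos θ : ℂ)) := by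
  obtain ⟨m, rfl⟩ : ∃ m, n = m + 1 := ⟨n - 1, by omega⟩
  have hu : Complex.exp (-(ζ * Complex.I)) = Complex.cos ζ - Complex.sin ζ * Complex.I := by
    have := Complex.exp_mul_I (-ζ)
    rw [neg_mul] at this
    rw [this, Complex.cos_neg, Complex.sin_neg]
    ring
  have h1 : 2 * Complex.exp (-(ζ * Complex.I)) * Complex.cos ζ =
      Complex.exp (-(ζ * Complex.I)) ^ 2 + 1 := by
    rw [hu]
    have h3 := Complex.sin_sq_add_cos_sq ζ
    have h4 := Complex.I_sq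
    linear_combination (1 : ℂ) * h3 - (Complex.sin ζ) ^ 2 * h4
  have h2 := p5k_main θ h1 h m
  have h3 : -Complex.I * Complex.sin ζ = Complex.exp (-(ζ * Complex.I)) - Complex.cos ζ := by
    rw [hu]
    ring
  have h4 : p5Em (m + 1) θ ζ = 1 + 2 * ∑ k ∈ Finset.Ico 1 (m + 1), (Real.cos (k * θ) : ℂ) *
      Complex.exp (-(ζ * Complex.I)) ^ k := by
    unfold p5Em
    congr 2
    refine Finset.sum_congr rfl fun k _ => ?_
    rw [← Complex.exp_nat_mul]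
    congr 2
    ring
  rw [h3, h4, h2, Nat.add_sub_cancel]
  have h5 : ((m + 1 : ℕ) : ℝ) - 1 = m := by push_cast; ring
  rw [h5]
  push_cast
  rfl

theorem p5k_upper {n : ℕ} (hn : 1 ≤ n) (θ : ℝ) {ζ : ℂ} (h : Complex.cos ζ ≠ (Real.cos θ : ℂ)) :
    Complex.I * Complex.sin ζ / ((Real.cos θ : ℂ) - Complex.cos ζ) - p5Ep n θ ζ =
      Complex.exp (ζ * Complex.I) ^ (n - 1) * ((Real.cos (n * θ) : ℂ) -
        Complex.exp (ζ * Complex.I) * (Real.cos ((n - 1 : ℝ) * θ) : ℂ)) /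
        (Complex.cos ζ - (Real.cos θ : ℂ)) := by
  obtain ⟨m, rfl⟩ : ∃ m, n = m + 1 := ⟨n - 1, by omega⟩
  have hu : Complex.exp (ζ * Complex.I) = Complex.cos ζ + Complex.sin ζ * Complex.I :=
    Complex.exp_mul_I ζ
  have h1 : 2 * Complex.exp (ζ * Complex.I) * Complex.cos ζ =
      Complex.exp (ζ * Complex.I) ^ 2 + 1 := by
    rw [hu]
    have h3 := Complex.sin_sq_add_cos_sq ζ
    have h4 := Complex.I_sq
    linear_combination (1 : ℂ) * h3 - (Complex.sin ζ) ^ 2 * h4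
  have h2 := p5k_main θ h1 h m
  have h3 : Complex.I * Complex.sin ζ = Complex.exp (ζ * Complex.I) - Complex.cos ζ := by
    rw [hu]
    ring
  have h4 : p5Ep (m + 1) θ ζ = 1 + 2 * ∑ k ∈ Finset.Ico 1 (m + 1), (Real.cos (k * θ) : ℂ) *
      Complex.exp (ζ * Complex.I) ^ k := by
    unfold p5Ep
    congr 2
    refine Finset.sum_congr rfl fun k _ => ?_
    rw [← Complex.exp_nat_mul]
    congr 2
    ring
  rw [h3, h4, h2, Nat.add_sub_cancel]
  have h5 : ((m + 1 : ℕ) : ℝ) - 1 = m := by push_cast; ring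
  rw [h5]
  push_cast
  rfl

/-- the common estimate of the remainder -/
theorem p5k_bound {m : ℕ} (θ : ℝ) {u D : ℂ} {ρ t : ℝ} (hρ : 0 < ρ) (hD : ρ ≤ ‖D‖)
    (hu : ‖u‖ = Real.exp (-t)) (ht : 0 ≤ t) (a b : ℝ) :
    ‖u ^ m * ((Real.cos a : ℂ) - u * (Real.cos b : ℂ)) / D‖ ≤ 2 * Real.exp (-(m * t)) / ρ := by
  have _ := θ
  rw [norm_div, norm_mul, norm_pow, hu, ← Real.exp_nat_mul]
  have h1 : ‖(Real.cos a : ℂ) - u * (Real.cos b : ℂ)‖ ≤ 2 := by
    refine (norm_sub_le _ _).trans ?_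
    rw [norm_mul, Complex.norm_real, Complex.norm_real, hu, Real.norm_eq_abs, Real.norm_eq_abs]
    have h2 := Real.abs_cos_le_one a
    have h3 := Real.abs_cos_le_one b
    have h4 : Real.exp (-t) ≤ 1 := Real.exp_le_one_iff.2 (by linarith)
    have h5 : Real.exp (-t) * |Real.cos b| ≤ 1 * 1 :=
      mul_le_mul h4 h3 (abs_nonneg _) (by norm_num)
    linarith
  have h6 : (m : ℝ) * -t = -(m * t) := by ring
  rw [h6, mul_comm 2]
  exact div_le_div₀ (by positivity) (mul_le_mul_of_nonneg_left h1 (Real.exp_pos _).le) hρ hD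

theorem p5k_rem_lower {n : ℕ} (hn : 1 ≤ n) (θ : ℝ) {ζ : ℂ} {ρ : ℝ} (hρ : 0 < ρ)
    (h : ρ ≤ ‖Complex.cos ζ - (Real.cos θ : ℂ)‖) (hi : ζ.im ≤ 0) :
    ‖-Complex.I * Complex.sin ζ / ((Real.cos θ : ℂ) - Complex.cos ζ) - p5Em n θ ζ‖ ≤
      2 * Real.exp (-((n - 1 : ℝ) * |ζ.im|)) / ρ := by
  have h0 : Complex.cos ζ ≠ (Real.cos θ : ℂ) := by
    intro h1
    rw [h1, sub_self, norm_zero] at h
    linarith
  rw [p5k_lower hn θ h0]
  have h1 : ‖Complex.exp (-(ζ * Complex.I))‖ = Real.exp (-|ζ.im|) := by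
    rw [Complex.norm_exp, abs_of_nonpos hi]
    simp
  have h2 : ((n - 1 : ℕ) : ℝ) = n - 1 := by
    rw [Nat.cast_sub hn, Nat.cast_one]
  have h3 := p5k_bound (m := n - 1) θ hρ h h1 (abs_nonneg _) (n * θ) ((n - 1 : ℝ) * θ)
  rwa [h2] at h3

theorem p5k_rem_upper {n : ℕ} (hn : 1 ≤ n) (θ : ℝ) {ζ : ℂ} {ρ : ℝ} (hρ : 0 < ρ)
    (h : ρ ≤ ‖Complex.cos ζ - (Real.cos θ : ℂ)‖) (hi : 0 ≤ ζ.im) :
    ‖Complex.I * Complex.sin ζ / ((Real.cos θ : ℂ) - Complex.cos ζ) - p5Ep n θ ζ‖ ≤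
      2 * Real.exp (-((n - 1 : ℝ) * |ζ.im|)) / ρ := by
  have h0 : Complex.cos ζ ≠ (Real.cos θ : ℂ) := by
    intro h1
    rw [h1, sub_self, norm_zero] at h
    linarith
  rw [p5k_upper hn θ h0]
  have h1 : ‖Complex.exp (ζ * Complex.I)‖ = Real.exp (-|ζ.im|) := by
    rw [Complex.norm_exp, abs_of_nonneg hi]
    simp
  have h2 : ((n - 1 : ℕ) : ℝ) = n - 1 := by
    rw [Nat.cast_sub hn, Nat.cast_one]
  have h3 := p5k_bound (m := n - 1) θ hρ h h1 (abs_nonneg _) (n * θ) ((n - 1 : ℝ) * θ)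
  rwa [h2] at h3

theorem p5k_normSq_sin (w : ℂ) : ‖Complex.sin w‖ ^ 2 = Real.sin w.re ^ 2 + Real.sinh w.im ^ 2 := by
  rw [← Complex.normSq_eq_norm_sq, Complex.normSq_apply]
  have h1 : (Complex.sin w).re = Real.sin w.re * Real.cosh w.im := by
    conv_lhs => rw [← Complex.re_add_im w]
    rw [Complex.sin_add_mul_I]
    simp [← Complex.ofReal_sin, ← Complex.ofReal_cosh, ← Complex.ofReal_cos, ← Complex.ofReal_sinh]
  have h2 : (Complex.sin w).im = Real.cos w.re * Real.sinh w.im := by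
    conv_lhs => rw [← Complex.re_add_im w]
    rw [Complex.sin_add_mul_I]
    simp [← Complex.ofReal_sin, ← Complex.ofReal_cosh, ← Complex.ofReal_cos, ← Complex.ofReal_sinh]
  rw [h1, h2]
  have h3 := Real.cosh_sq w.im
  have h4 := Real.sin_sq_add_cos_sq w.re
  linear_combination (Real.sin w.re) ^ 2 * h3 + (Real.sinh w.im) ^ 2 * h4

theorem p5k_sin_re (w : ℂ) : |Real.sin w.re| ≤ ‖Complex.sin w‖ := by
  apply abs_le_of_sq_le_sq' _ (norm_nonneg _) |>.2.trans' ?_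
  · exact |Real.sin w.re|
  · rw [p5k_normSq_sin, sq_abs]
    nlinarith [sq_nonneg (Real.sinh w.im)]
  · exact le_rfl

theorem p5k_abs_sin {x : ℝ} (hx : |x| ≤ Real.pi / 2) : 2 / Real.pi * |x| ≤ |Real.sin x| := by
  rcases le_total 0 x with h | h
  · rw [abs_of_nonneg h] at hx ⊢
    exact (Real.mul_le_sin h hx).trans (le_abs_self _)
  · rw [abs_of_nonpos h] at hx ⊢
    have h1 := Real.mul_le_sin (by linarith : 0 ≤ -x) hx
    rw [Real.sin_neg] at h1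
    exact h1.trans (neg_le_abs _)

theorem p5k_abs_sinh (x : ℝ) : |x| ≤ |Real.sinh x| := by
  rcases le_total 0 x with h | h
  · rw [abs_of_nonneg h]
    exact (Real.self_le_sinh_iff.2 h).trans (le_abs_self _)
  · rw [abs_of_nonpos h]
    have h1 := Real.self_le_sinh_iff.2 (by linarith : 0 ≤ -x)
    rw [Real.sinh_neg] at h1
    exact h1.trans (neg_le_abs _)

theorem p5k_sin_norm {w : ℂ} (hw : |w.re| ≤ Real.pi / 2) :
    2 / Real.pi * ‖w‖ ≤ ‖Complex.sin w‖ := by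
  have hpi := Real.pi_pos
  have h3 : 2 / Real.pi ≤ 1 := by
    rw [div_le_one hpi]
    linarith [Real.two_le_pi]
  have h0 : 0 ≤ 2 / Real.pi := by positivity
  refine le_of_sq_le_sq ?_ (norm_nonneg _)
  rw [mul_pow, p5k_normSq_sin, ← Complex.normSq_eq_norm_sq w, Complex.normSq_apply]
  have h1 := p5k_abs_sin hw
  have h2 := p5k_abs_sinh w.im
  have h4 : (2 / Real.pi) ^ 2 * (w.re * w.re) ≤ Real.sin w.re ^ 2 := by
    have h5 := pow_le_pow_left₀ (by positivity) h1 2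
    rw [mul_pow, sq_abs, sq_abs] at h5
    linarith [h5, sq (w.re)]
  have h6 : (2 / Real.pi) ^ 2 * (w.im * w.im) ≤ Real.sinh w.im ^ 2 := by
    have h5 := pow_le_pow_left₀ (abs_nonneg _) h2 2
    rw [sq_abs, sq_abs] at h5
    have h7 : (2 / Real.pi) ^ 2 ≤ 1 := pow_le_one₀ h0 h3
    nlinarith [sq_nonneg w.im, mul_self_nonneg w.im]
  linarith

theorem p5k_low {t0 S θ : ℝ} (h0 : 0 < t0) (h1 : t0 < Real.pi) (hS : 0 < S) (hS0 : S ≤ t0 / 2)
    (hS1 : S ≤ (Real.pi - t0) / 2) (hθ : θ ∈ Icc 0 Real.pi) (hd : S / 4 ≤ |(|θ - t0| - S)|)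
    {ζ : ℂ} (hζ : ‖ζ - t0‖ = S) :
    S * Real.sin t0 / 40 ≤ ‖Complex.cos ζ - (Real.cos θ : ℂ)‖ := by
  have hpi := Real.pi_pos
  have hre : |ζ.re - t0| ≤ S := by
    rw [← hζ]
    have := Complex.abs_re_le_norm (ζ - t0)
    simpa using this
  rw [abs_le] at hre
  have hθ0 := hθ.1
  have hθ1 := hθ.2
  -- first factor
  have hdist : S / 4 ≤ ‖ζ - θ‖ := by
    have h2 : ‖ζ - (t0 : ℂ)‖ ≤ ‖ζ - θ‖ + ‖(θ : ℂ) - t0‖ := norm_sub_le_norm_sub_add_norm_sub _ _ _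
    have h3 : ‖(θ : ℂ) - t0‖ ≤ ‖ζ - θ‖ + ‖ζ - t0‖ := by
      have := norm_sub_le_norm_sub_add_norm_sub (θ : ℂ) ζ t0
      rwa [norm_sub_rev (θ : ℂ) ζ] at this
    have h4 : ‖(θ : ℂ) - t0‖ = |θ - t0| := by
      rw [← Complex.ofReal_sub, Complex.norm_real, Real.norm_eq_abs]
    rw [hζ, h4] at h2
    rw [h4, hζ] at h3
    rcases abs_cases (|θ - t0| - S) with ⟨h5, -⟩ | ⟨h5, -⟩
    · rw [h5] at hd
      linarith
    · rw [h5] at hd
      linarith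
  have hf1 : S / (4 * Real.pi) ≤ ‖Complex.sin ((ζ - θ) / 2)‖ := by
    have h2 : |((ζ - θ) / 2).re| ≤ Real.pi / 2 := by
      have h3 : ((ζ - θ) / 2).re = (ζ.re - θ) / 2 := by simp
      rw [h3, abs_le]
      constructor <;> linarith
    refine le_trans ?_ (p5k_sin_norm h2)
    rw [norm_div]
    have h3 : ‖(2 : ℂ)‖ = 2 := by simp
    rw [h3]
    have h4 : S / (4 * Real.pi) = 2 / Real.pi * (S / 4 / 2) := by
      field_simp
    rw [h4]
    gcongr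
  -- second factor
  have hf2 : Real.sin t0 / (2 * Real.pi) ≤ ‖Complex.sin ((ζ + θ) / 2)‖ := by
    refine le_trans ?_ (p5k_sin_re _)
    have h3 : ((ζ + θ) / 2).re = (ζ.re + θ) / 2 := by simp
    rw [h3]
    refine le_trans ?_ (le_abs_self _)
    have h4 : t0 / 4 ≤ (ζ.re + θ) / 2 := by linarith
    have h5 : (Real.pi - t0) / 4 ≤ Real.pi - (ζ.re + θ) / 2 := by linarith
    have h6 : Real.sin t0 ≤ t0 := Real.sin_le h0.le
    have h7 : Real.sin t0 ≤ Real.pi - t0 := by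
      rw [← Real.sin_pi_sub]
      exact Real.sin_le (by linarith)
    rcases le_total ((ζ.re + θ) / 2) (Real.pi / 2) with h8 | h8
    · have h9 := Real.mul_le_sin (by linarith : 0 ≤ (ζ.re + θ) / 2) h8
      refine le_trans ?_ h9
      have h10 : Real.sin t0 / (2 * Real.pi) = 2 / Real.pi * (Real.sin t0 / 4) := by
        field_simp
        ring
      rw [h10]
      exact mul_le_mul_of_nonneg_left (by linarith) (by positivity)
    · have h9 := Real.mul_le_sin (by linarith : 0 ≤ Real.pi - (ζ.re + θ) / 2) (by linarith)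
      rw [Real.sin_pi_sub] at h9
      refine le_trans ?_ h9
      have h10 : Real.sin t0 / (2 * Real.pi) = 2 / Real.pi * (Real.sin t0 / 4) := by
        field_simp
        ring
      rw [h10]
      exact mul_le_mul_of_nonneg_left (by linarith) (by positivity)
  have hprod : ‖Complex.cos ζ - (Real.cos θ : ℂ)‖ =
      2 * ‖Complex.sin ((ζ + θ) / 2)‖ * ‖Complex.sin ((ζ - θ) / 2)‖ := by
    rw [Complex.ofReal_cos, Complex.cos_sub_cos]
    simp
  rw [hprod]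
  have hs0 : 0 < Real.sin t0 := Real.sin_pos_of_pos_of_lt_pi h0 h1
  have h2 : 2 * (Real.sin t0 / (2 * Real.pi)) * (S / (4 * Real.pi)) ≤
      2 * ‖Complex.sin ((ζ + θ) / 2)‖ * ‖Complex.sin ((ζ - θ) / 2)‖ := by
    gcongr
  refine le_trans ?_ h2
  have h3 : 2 * (Real.sin t0 / (2 * Real.pi)) * (S / (4 * Real.pi)) =
      S * Real.sin t0 / (4 * Real.pi ^ 2) := by
    field_simp
  rw [h3]
  have h4 : 4 * Real.pi ^ 2 ≤ 40 := by
    have := Real.pi_lt_d2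
    nlinarith
  gcongr

end Pool.H52.MQ
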