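import Pool.Agent.H44.P5.Defs

/-! Row P5Z: the function zc and the gauged polynomial.  Mathlib only.
* p5z_real: y in [0,1]: zc y = zz y (both = 2y-1 + 2 i sqrt(y(1-y)); Real.cos_arccos, Real.sin_arccos, sqrt(1-(2y-1)^2) = 2 sqrt(y(1-y));
  (x:C)^(1/2) = sqrt x for x >= 0: Complex.ofReal_cpow, Real.sqrt_eq_rpow); hence p5G m f y = zz y ^ (-(m-1)) * f.eval (vp y).
* p5z_mul: zc y * (2y-1 - 2 i c) = (2y-1)^2 + 4 c^2 = 1 with c = (y(1-y))^(1/2), c^2 = y(1-y) (Complex.cpow_nat_inv_pow or cpow_mul/ cpow_two).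
* p5z_norm: (|z| + 1/|z|) = 2 (|y| + |1-y|): z + 1/z = 2(2y-1), i.e. 4 y z = (z+1)^2, 4 (1-y) z = -(z-1)^2, so 4|y||z| = |z+1|^2, 4|1-y||z| = |z-1|^2,
  and |z+1|^2 + |z-1|^2 = 2|z|^2+2 (parallelogram_law_with_norm); divide by 2|z|.
* p5z_bound: if |y|+|1-y| <= 1 + x^2/2, x >= 0, then e^-x <= |z| <= e^x: g = log|z|, 2 cosh g = |z|+1/|z| <= 2 + x^2, cosh g >= 1 + g^2/2 (cosh g = 1+2 sinh(g/2)^2, |sinh u| >= |u|), so |g| <= x.
* p5z_growth: deg f <= d, |f| <= M on the unit circle => |f(z)| <= M max(1,|z|)^d.  |z| <= 1: maximum modulus (Complex.norm_le_of_forall_mem_frontier_norm_le on the ball).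
  |z| > 1: apply it to f.reflect d (eval at 1/z: z^d * (reflect d f)(1/z) = f z, Polynomial.eval2_reflect_mul_pow or reverse), |reflect| <= M on the circle.
* p5z_G: |G(y)| = |z|^(-(m-1)) |f(z^2)| <= |z|^(-(m-1)) M max(1,|z|^2)^(m-1) = M max(|z|,1/|z|)^(m-1) <= M exp((m-1)x) <= M exp(m x).
* p5z_diff: y(1-y) in the slit plane (real part > 0): differentiable (DifferentiableAt.const_cpow / cpow_const), zc y /= 0 by p5z_mul. -/

open MeasureTheory Set Polynomial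
open scoped ENNReal ComplexConjugate

namespace Pool.H52.MQ

theorem p5z_sq (y : ℂ) : ((y * (1 - y)) ^ (1 / 2 : ℂ)) ^ 2 = y * (1 - y) := by
  have h := Complex.cpow_nat_inv_pow (y * (1 - y)) (n := 2) two_ne_zero
  have h2 : (1 / 2 : ℂ) = ((2 : ℕ) : ℂ)⁻¹ := by norm_num
  rw [h2]
  exact h

theorem p5z_quad (y : ℂ) : zc y ^ 2 + 1 = 2 * (2 * y - 1) * zc y := by
  unfold zc
  have h := p5z_sq y
  have hI : Complex.I ^ 2 = -1 := Complex.I_sq
  generalize (y * (1 - y)) ^ (1 / 2 : ℂ) = c at *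
  linear_combination 4 * c ^ 2 * hI - 4 * h

theorem p5z_ne (y : ℂ) : zc y ≠ 0 := by
  intro h
  have h2 := p5z_quad y
  rw [h] at h2
  norm_num at h2

theorem p5z_real {y : ℝ} (hy : y ∈ Icc (0 : ℝ) 1) : zc (y : ℂ) = zz y := by
  obtain ⟨h0, h1⟩ := hy
  have hyy : 0 ≤ y * (1 - y) := mul_nonneg h0 (by linarith)
  have h2 : (((y : ℝ) : ℂ) * (1 - (y : ℂ))) ^ (1 / 2 : ℂ) = ((√(y * (1 - y)) : ℝ) : ℂ) := by
    have h3 : ((y : ℂ) * (1 - (y : ℂ))) = ((y * (1 - y) : ℝ) : ℂ) := by push_cast; ring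
    have h4 : (1 / 2 : ℂ) = ((1 / 2 : ℝ) : ℂ) := by push_cast; ring
    rw [h3, h4, ← Complex.ofReal_cpow hyy, Real.sqrt_eq_rpow]
  unfold zc zz
  rw [h2, Complex.exp_mul_I, ← Complex.ofReal_cos, ← Complex.ofReal_sin,
    Real.cos_arccos (by linarith) (by linarith), Real.sin_arccos]
  have h5 : √(1 - (2 * y - 1) ^ 2) = 2 * √(y * (1 - y)) := by
    have h6 : 1 - (2 * y - 1) ^ 2 = 2 ^ 2 * (y * (1 - y)) := by ring
    rw [h6, Real.sqrt_mul (by norm_num), Real.sqrt_sq (by norm_num)]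
  rw [h5]
  push_cast
  ring

theorem p5z_Greal (m : ℕ) (f : ℂ[X]) {y : ℝ} (hy : y ∈ Icc (0 : ℝ) 1) :
    p5G m f (y : ℂ) = zz y ^ (-((m : ℤ) - 1)) * f.eval (vp y) := by
  unfold p5G vp
  rw [p5z_real hy]

theorem p5z_norm (y : ℂ) : ‖zc y‖ + ‖zc y‖⁻¹ = 2 * (‖y‖ + ‖1 - y‖) := by
  have hz : 0 < ‖zc y‖ := norm_pos_iff.2 (p5z_ne y)
  have hq := p5z_quad y
  have h1 : ‖zc y + 1‖ ^ 2 = 4 * (‖y‖ * ‖zc y‖) := by
    have : (zc y + 1) ^ 2 = 4 * (y * zc y) := by linear_combination hq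
    rw [← norm_pow, this, norm_mul, norm_mul]
    norm_num
  have h2 : ‖zc y - 1‖ ^ 2 = 4 * (‖1 - y‖ * ‖zc y‖) := by
    have : (zc y - 1) ^ 2 = -(4 * ((1 - y) * zc y)) := by linear_combination hq
    rw [← norm_pow, this, norm_neg, norm_mul, norm_mul]
    norm_num
  have h3 := parallelogram_law_with_norm ℝ (zc y) 1
  rw [norm_one] at h3
  have h4 : 2 * ‖zc y‖ ^ 2 + 2 = 4 * ‖zc y‖ * (‖y‖ + ‖1 - y‖) := by nlinarith
  field_simp
  nlinarith

theorem p5z_bound {y : ℂ} {x : ℝ} (hx : 0 ≤ x) (hy : ‖y‖ + ‖1 - y‖ ≤ 1 + x ^ 2 / 2) :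
    ‖zc y‖ ≤ Real.exp x ∧ ‖zc y‖⁻¹ ≤ Real.exp x := by
  have hz : 0 < ‖zc y‖ := norm_pos_iff.2 (p5z_ne y)
  have hn := p5z_norm y
  have hc : Real.cosh (Real.log ‖zc y‖) ≤ 1 + x ^ 2 / 2 := by
    rw [Real.cosh_eq, Real.exp_log hz, Real.exp_neg, Real.exp_log hz, hn]
    linarith
  have hc2 : 1 + x ^ 2 / 2 ≤ Real.cosh x := by
    have h1 : Real.cosh x = 1 + 2 * Real.sinh (x / 2) ^ 2 := by
      have h2 := Real.cosh_two_mul (x / 2)
      have h3 := Real.cosh_sq (x / 2)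
      have h4 : 2 * (x / 2) = x := by ring
      rw [h4] at h2
      rw [h2, h3]
      ring
    have h5 : x / 2 ≤ Real.sinh (x / 2) := Real.self_le_sinh_iff.2 (by linarith)
    have h6 : (x / 2) ^ 2 ≤ Real.sinh (x / 2) ^ 2 := pow_le_pow_left₀ (by linarith) h5 2
    rw [h1]
    nlinarith
  have h7 : |Real.log ‖zc y‖| ≤ |x| := Real.cosh_le_cosh.1 (hc.trans hc2)
  rw [abs_of_nonneg hx, abs_le] at h7
  constructor
  · rw [← Real.exp_log hz]
    exact Real.exp_le_exp.2 h7.2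
  · rw [← Real.exp_log hz, ← Real.exp_neg]
    exact Real.exp_le_exp.2 (by linarith [h7.1])

theorem p5z_disc {f : ℂ[X]} {M : ℝ} (hM : ∀ z : ℂ, ‖z‖ = 1 → ‖f.eval z‖ ≤ M) {z : ℂ}
    (hz : ‖z‖ ≤ 1) : ‖f.eval z‖ ≤ M := by
  have hd : DiffContOnCl ℂ (fun z => f.eval z) (Metric.ball (0 : ℂ) 1) :=
    f.differentiable.diffContOnCl
  refine Complex.norm_le_of_forall_mem_frontier_norm_le Metric.isBounded_ball hd ?_ ?_
  · intro w hw
    rw [frontier_ball (0 : ℂ) one_ne_zero] at hw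
    exact hM w (by simpa using hw)
  · rw [closure_ball (0 : ℂ) one_ne_zero]
    simpa using hz

theorem p5z_growth {f : ℂ[X]} {d : ℕ} {M : ℝ} (hd : f.natDegree ≤ d)
    (hM : ∀ z : ℂ, ‖z‖ = 1 → ‖f.eval z‖ ≤ M) (z : ℂ) : ‖f.eval z‖ ≤ M * max 1 ‖z‖ ^ d := by
  rcases le_or_gt ‖z‖ 1 with h | h
  · rw [max_eq_left h, one_pow, mul_one]
    exact p5z_disc hM h
  · rw [max_eq_right h.le]
    have key : ∀ w : ℂ, w ≠ 0 → f.eval w = (f.reflect d).eval w⁻¹ * w ^ d := by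
      intro w hw
      have := invertibleOfNonzero hw
      have h1 := eval₂_reflect_mul_pow (RingHom.id ℂ) w d f hd
      rw [invOf_eq_inv] at h1
      exact h1.symm
    have hz0 : z ≠ 0 := by
      intro h0
      rw [h0, norm_zero] at h
      linarith
    have hR : ∀ w : ℂ, ‖w‖ = 1 → ‖(f.reflect d).eval w‖ ≤ M := by
      intro w hw
      have hw0 : w ≠ 0 := by
        intro h0
        rw [h0, norm_zero] at hw
        linarith
      have h2 := key w⁻¹ (inv_ne_zero hw0)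
      rw [inv_inv] at h2
      have h3 := hM w⁻¹ (by rw [norm_inv, hw, inv_one])
      rw [h2, norm_mul, norm_pow, norm_inv, hw, inv_one, one_pow, mul_one] at h3
      exact h3
    rw [key z hz0, norm_mul, norm_pow]
    refine mul_le_mul_of_nonneg_right (p5z_disc hR ?_) (by positivity)
    rw [norm_inv]
    exact inv_le_one_of_one_le₀ h.le

theorem p5z_G {m : ℕ} {f : ℂ[X]} {M x : ℝ} {y : ℂ} (hm : 1 ≤ m) (hd : f.natDegree ≤ m - 1)
    (hM : ∀ z : ℂ, ‖z‖ = 1 → ‖f.eval z‖ ≤ M) (hx : 0 ≤ x) (hy : ‖y‖ + ‖1 - y‖ ≤ 1 + x ^ 2 / 2) :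
    ‖p5G m f y‖ ≤ M * Real.exp (m * x) := by
  obtain ⟨k, rfl⟩ : ∃ k, m = k + 1 := ⟨m - 1, by omega⟩
  have hz : 0 < ‖zc y‖ := norm_pos_iff.2 (p5z_ne y)
  have hM0 : 0 ≤ M := (norm_nonneg _).trans (hM 1 norm_one)
  obtain ⟨b1, b2⟩ := p5z_bound hx hy
  have hg := p5z_growth hd hM (zc y ^ 2)
  rw [Nat.add_sub_cancel, norm_pow] at hg
  have he : p5G (k + 1) f y = (zc y ^ k)⁻¹ * f.eval (zc y ^ 2) := by
    unfold p5G
    congr 1
    rw [← zpow_natCast, ← zpow_neg]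
    congr 1
    push_cast
    ring
  rw [he, norm_mul, norm_inv, norm_pow]
  have h1 : (‖zc y‖ ^ k)⁻¹ * ‖f.eval (zc y ^ 2)‖ ≤ (‖zc y‖ ^ k)⁻¹ * (M * max 1 (‖zc y‖ ^ 2) ^ k) :=
    mul_le_mul_of_nonneg_left hg (by positivity)
  refine h1.trans ?_
  have h2 : (‖zc y‖ ^ k)⁻¹ * (M * max 1 (‖zc y‖ ^ 2) ^ k) =
      M * (‖zc y‖⁻¹ * max 1 (‖zc y‖ ^ 2)) ^ k := by
    rw [mul_pow, inv_pow]
    ring
  rw [h2]
  refine mul_le_mul_of_nonneg_left ?_ hM0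
  have h3 : ‖zc y‖⁻¹ * max 1 (‖zc y‖ ^ 2) ≤ Real.exp x := by
    rcases le_total (‖zc y‖ ^ 2) 1 with h | h
    · rw [max_eq_left h, mul_one]
      exact b2
    · rw [max_eq_right h]
      have : ‖zc y‖⁻¹ * ‖zc y‖ ^ 2 = ‖zc y‖ := by field_simp
      rw [this]
      exact b1
  have h4 : (‖zc y‖⁻¹ * max 1 (‖zc y‖ ^ 2)) ^ k ≤ Real.exp x ^ k :=
    pow_le_pow_left₀ (by positivity) h3 k
  refine h4.trans ?_
  rw [← Real.exp_nat_mul]
  refine Real.exp_le_exp.2 ?_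
  push_cast
  nlinarith

theorem p5z_diff (m : ℕ) (f : ℂ[X]) {y : ℂ} (hy : 0 < (y * (1 - y)).re) :
    DifferentiableAt ℂ (p5G m f) y := by
  have hz : DifferentiableAt ℂ zc y := by
    unfold zc
    have h1 : DifferentiableAt ℂ (fun y : ℂ => y * (1 - y)) y :=
      differentiableAt_id.mul ((differentiableAt_const _).sub differentiableAt_id)
    have h2 : DifferentiableAt ℂ (fun y : ℂ => (y * (1 - y)) ^ (1 / 2 : ℂ)) y :=
      h1.cpow (differentiableAt_const _) (Or.inl hy)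
    exact (((differentiableAt_const _).mul differentiableAt_id).sub
      (differentiableAt_const _)).add ((differentiableAt_const _).mul h2)
  have h3 : DifferentiableAt ℂ (fun y => zc y ^ (-((m : ℤ) - 1))) y := hz.zpow (Or.inl (p5z_ne y))
  have h4 : DifferentiableAt ℂ (fun y => f.eval (zc y ^ 2)) y :=
    DifferentiableAt.comp y (f.differentiable _) (hz.pow 2)
  exact h3.mul h4

end Pool.H52.MQ
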