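import Pool.Agent.H44.P5.B
import Pool.Agent.H44.P5.Z

/-! Row P5M: estimates of p5F near th0.  Uses P5A, P5B, P5Z.  lam0 = lam w y0, N = NN n w y0 = n sqrt(y0(1-y0))/lam0, t = lam0 |s|, tau = |Im s|, v = p5v(th0+s), y = y0+v.
* p5m_diff: p5v differentiable (p5a_diff), y near y0: |v| <= 2t <= 1/500, so Re(y(1-y)) > 0 (y0(1-y0) >= 2/9), p5z_diff; product and power.
* p5m_circle (0.015 eta <= t <= 0.03 eta):
  p5b_abs and p5z_G with x = sqrt(1+60t) lam0 tau/sqrt(y0(1-y0)): |G| <= M e^{m x}, m x <= (1-2eta)(1+30t) n tau <= (1-eta) n tau  (m <= (1-2eta)N; 30 t <= 0.9 eta).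
  |1-v^2| <= exp(-a^2/2 + 2b^2), v = a+ib, |v| <= 1/10: |1-v^2|^2 = 1 - 2a^2 + 2b^2 + (a^2+b^2)^2.  |b| <= 1.1 lam0 tau (p5b_im), so 2 r b^2 <= 2 (eta N/4)(1.21 lam0^2 tau^2) <= eta n tau/1000
  (N lam0 <= n/2, lam0 tau <= t <= 1/1000).
  Total exponent of |F| e^{-(n-1)tau}: <= -0.99 eta n tau - r a^2/2 + tau, e^tau <= 3 (tau <= |s| = t/lam0 <= 9t/2 <= 1).
  |s|^2 = (Re s)^2+(Im s)^2: either tau >= |s|/2: eta n tau >= eta n t/(2 lam0) >= eta N t >= 0.015 eta^2 N >= eta^3 N/4000000 (n/lam0 >= 2N);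
  or |Re s| >= |s|/2: |a| >= lam0|Re s| - 13t^2 >= t/2 - 13 t^2 >= t/4: r a^2/2 >= (eta N/16)(t^2/16)/2 >= eta N (0.000225 eta^2)/512 >= eta^3 N/4000000.
* p5m_real (s real, 0.01 eta <= t <= 0.03 eta): v = y - y0 is real?  Use tau = 0: x = 0, |G| <= M; |1-v^2|^r <= exp(-r a^2/2) (b = 0 by p5b_im), |a| >= t - 13t^2 >= t/2: r a^2/2 >= (eta N/16)(t^2/4)/2 >= eta^3 N/4000000. -/

open MeasureTheory Set Polynomial
open scoped ENNReal ComplexConjugate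

namespace Pool.H52.MQ

private theorem P5M_one (v : ℂ) (hv : ‖v‖ ≤ 1 / 10) (r : ℕ) :
    ‖(1 - v ^ 2) ^ r‖ ≤ Real.exp (r * (-(v.re ^ 2 / 2) + 2 * v.im ^ 2)) := by
  have h1 : ‖1 - v ^ 2‖ ≤ Real.exp (-(v.re ^ 2 / 2) + 2 * v.im ^ 2) := by
    have h2 : ‖1 - v ^ 2‖ ^ 2 ≤ Real.exp (-(v.re ^ 2 / 2) + 2 * v.im ^ 2) ^ 2 := by
      have h3 : Real.exp (-(v.re ^ 2 / 2) + 2 * v.im ^ 2) ^ 2 =
          Real.exp (-(v.re ^ 2) + 4 * v.im ^ 2) := by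
        rw [← Real.exp_nat_mul]
        congr 1
        push_cast
        ring
      have h4 : ‖1 - v ^ 2‖ ^ 2 = 1 - 2 * v.re ^ 2 + 2 * v.im ^ 2 + (v.re ^ 2 + v.im ^ 2) ^ 2 := by
        rw [Complex.sq_norm, Complex.normSq_apply]
        simp only [Complex.sub_re, Complex.sub_im, Complex.one_re, Complex.one_im, sq,
          Complex.mul_re, Complex.mul_im]
        ring
      have h5 : v.re ^ 2 + v.im ^ 2 = ‖v‖ ^ 2 := by
        rw [Complex.sq_norm, Complex.normSq_apply]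
        ring
      have h6 : ‖v‖ ^ 2 ≤ 1 := by
        have := norm_nonneg v
        nlinarith
      have h7 := Real.add_one_le_exp (-(v.re ^ 2) + 4 * v.im ^ 2)
      rw [h3, h4]
      have h8 : (v.re ^ 2 + v.im ^ 2) ^ 2 ≤ v.re ^ 2 + v.im ^ 2 := by
        rw [h5]
        nlinarith [sq_nonneg ‖v‖]
      nlinarith [sq_nonneg v.re, sq_nonneg v.im]
    exact (pow_le_pow_iff_left₀ (norm_nonneg _) (Real.exp_pos _).le two_ne_zero).1 h2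
  rw [norm_pow, Real.exp_nat_mul]
  exact pow_le_pow_left₀ (norm_nonneg _) h1 r

private theorem P5M_q {y0 : ℝ} (hy : y0 ∈ Icc (1 / 3 : ℝ) (2 / 3)) :
    0 < √(y0 * (1 - y0)) ∧ √(y0 * (1 - y0)) ≤ 1 / 2 ∧ √(y0 * (1 - y0)) ^ 2 = y0 * (1 - y0) ∧
    2 / 9 ≤ y0 * (1 - y0) := by
  have h1 : 2 / 9 ≤ y0 * (1 - y0) := by nlinarith [hy.1, hy.2]
  refine ⟨Real.sqrt_pos.2 (by linarith), ?_, Real.sq_sqrt (by linarith), h1⟩
  rw [Real.sqrt_le_left (by norm_num)]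
  nlinarith [sq_nonneg (y0 - 1 / 2)]

private theorem P5M_v (w : List Bool) {y0 : ℝ} (hy : y0 ∈ Icc (1 / 3 : ℝ) (2 / 3)) {s : ℂ}
    (hs : lam w y0 * ‖s‖ ≤ 1 / 1000) :
    ‖p5v w y0 ((p5t w y0 : ℂ) + s)‖ ≤ 2 * (lam w y0 * ‖s‖) := by
  have h1 := (p5a_v w hy hs).1
  obtain ⟨-, -, -, hL, -, -, -⟩ := p5a_basic w hy
  have h2 : ‖(lam w y0 : ℂ) * s‖ = lam w y0 * ‖s‖ := by
    rw [norm_mul, Complex.norm_real, Real.norm_of_nonneg (by linarith)]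
  have h3 : ‖p5v w y0 ((p5t w y0 : ℂ) + s)‖ ≤
      ‖p5v w y0 ((p5t w y0 : ℂ) + s) - (lam w y0 : ℂ) * s‖ + ‖(lam w y0 : ℂ) * s‖ := by
    have := norm_add_le (p5v w y0 ((p5t w y0 : ℂ) + s) - (lam w y0 : ℂ) * s) ((lam w y0 : ℂ) * s)
    simpa using this
  have h4 : 0 ≤ lam w y0 * ‖s‖ := mul_nonneg (by linarith) (norm_nonneg _)
  rw [h2] at h3
  nlinarith

private theorem P5M_re (w : List Bool) {y0 : ℝ} (hy : y0 ∈ Icc (1 / 3 : ℝ) (2 / 3)) {s : ℂ}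
    (hs : lam w y0 * ‖s‖ ≤ 1 / 1000) :
    lam w y0 * |s.re| - 13 * (lam w y0 * ‖s‖) ^ 2 ≤
      |(p5v w y0 ((p5t w y0 : ℂ) + s)).re| := by
  have h1 := (p5a_v w hy hs).1
  obtain ⟨-, -, -, hL, -, -, -⟩ := p5a_basic w hy
  have h2 := Complex.abs_re_le_norm (p5v w y0 ((p5t w y0 : ℂ) + s) - (lam w y0 : ℂ) * s)
  rw [Complex.sub_re, Complex.re_ofReal_mul] at h2
  have h3 : |lam w y0 * s.re| = lam w y0 * |s.re| := by
    rw [abs_mul, abs_of_nonneg (by linarith : 0 ≤ lam w y0)]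
  have h4 := abs_sub_abs_le_abs_sub (lam w y0 * s.re) (p5v w y0 ((p5t w y0 : ℂ) + s)).re
  rw [abs_sub_comm, h3] at h4
  linarith

private theorem P5M_NN (w : List Bool) {n : ℕ} {y0 : ℝ} (hy : y0 ∈ Icc (1 / 3 : ℝ) (2 / 3)) :
    0 ≤ NN n w y0 ∧ NN n w y0 * lam w y0 = n * √(y0 * (1 - y0)) := by
  obtain ⟨-, -, -, hL, -, -, -⟩ := p5a_basic w hy
  obtain ⟨hq, -, -, -⟩ := P5M_q hy
  have hL0 : lam w y0 ≠ 0 := by linarith
  unfold NN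
  refine ⟨?_, div_mul_cancel₀ _ hL0⟩
  exact div_nonneg (mul_nonneg (Nat.cast_nonneg _) hq.le) (by linarith)

theorem p5m_diff (w : List Bool) {y0 : ℝ} (hy : y0 ∈ Icc (1 / 3 : ℝ) (2 / 3)) (m r : ℕ) (f : ℂ[X]) :
    DifferentiableOn ℂ (p5F w y0 m r f) (Metric.ball (p5t w y0 : ℂ) (1 / (1000 * lam w y0))) := by
  obtain ⟨-, -, -, hL, -, -, -⟩ := p5a_basic w hy
  have hL0 : 0 < lam w y0 := by linarith
  intro ζ hζ
  have hv : DifferentiableAt ℂ (p5v w y0) ζ :=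
    (p5a_diff w hy ζ hζ).differentiableAt (Metric.isOpen_ball.mem_nhds hζ)
  have hs : lam w y0 * ‖ζ - (p5t w y0 : ℂ)‖ ≤ 1 / 1000 := by
    rw [Metric.mem_ball, dist_eq_norm] at hζ
    have h1 : lam w y0 * ‖ζ - (p5t w y0 : ℂ)‖ ≤ lam w y0 * (1 / (1000 * lam w y0)) := by
      gcongr
    have h2 : lam w y0 * (1 / (1000 * lam w y0)) = 1 / 1000 := by
      field_simp
    linarith
  have hnv : ‖p5v w y0 ζ‖ ≤ 2 * (lam w y0 * ‖ζ - (p5t w y0 : ℂ)‖) := by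
    have := P5M_v w hy hs
    rwa [add_sub_cancel] at this
  set v := p5v w y0 ζ with hvd
  have hnv' : ‖v‖ ≤ 1 / 500 := by linarith
  have hG : DifferentiableAt ℂ (p5G m f) ((y0 : ℂ) + v) := by
    apply p5z_diff
    have h1 : (((y0 : ℂ) + v) * (1 - ((y0 : ℂ) + v))).re =
        y0 * (1 - y0) + v.re * (1 - 2 * y0) - (v ^ 2).re := by
      rw [sq]
      simp only [Complex.mul_re, Complex.add_re, Complex.sub_re, Complex.one_re, Complex.ofReal_re,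
        Complex.add_im, Complex.sub_im, Complex.one_im, Complex.ofReal_im]
      ring
    have h2 : |v.re| ≤ 1 / 500 := (Complex.abs_re_le_norm v).trans hnv'
    have h3 : |(v ^ 2).re| ≤ 1 / 500 := by
      refine (Complex.abs_re_le_norm _).trans ?_
      rw [norm_pow]
      nlinarith [norm_nonneg v]
    have h4 := (P5M_q hy).2.2.2
    rw [h1]
    have h5 := abs_le.1 h2
    have h6 := abs_le.1 h3
    have h7 : |1 - 2 * y0| ≤ 1 := by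
      rw [abs_le]
      constructor <;> linarith [hy.1, hy.2]
    have h8 : |v.re * (1 - 2 * y0)| ≤ 1 / 500 := by
      rw [abs_mul]
      calc |v.re| * |1 - 2 * y0| ≤ 1 / 500 * 1 := by gcongr
        _ = 1 / 500 := mul_one _
    have h9 := abs_le.1 h8
    linarith
  have hcomp : DifferentiableAt ℂ (fun ζ => p5G m f ((y0 : ℂ) + p5v w y0 ζ)) ζ :=
    DifferentiableAt.comp (g := p5G m f) (f := fun ζ => (y0 : ℂ) + p5v w y0 ζ) ζ hG
      (hv.const_add _)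
  have hpow : DifferentiableAt ℂ (fun ζ => (1 - p5v w y0 ζ ^ 2) ^ r) ζ :=
    (((hv.pow 2).const_sub 1).pow r)
  exact (hcomp.mul hpow).differentiableWithinAt

/-- the bound of `p5F`, with exponents -/
private theorem P5M_F (w : List Bool) {n : ℕ} {y0 : ℝ} {m r : ℕ} {M : ℝ} {f : ℂ[X]}
    (hy : y0 ∈ Icc (1 / 3 : ℝ) (2 / 3)) (hm : 1 ≤ m)
    (hf : f.natDegree ≤ m - 1) (hM : 0 ≤ M) (hfM : ∀ z : ℂ, ‖z‖ = 1 → ‖f.eval z‖ ≤ M)
    {s : ℂ} (hs : lam w y0 * ‖s‖ ≤ 1 / 1000) :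
    ‖p5F w y0 m r f ((p5t w y0 : ℂ) + s)‖ ≤
      M * Real.exp (m * (√(1 + 60 * (lam w y0 * ‖s‖)) * (lam w y0 * |s.im|) / √(y0 * (1 - y0))) +
        r * (-((p5v w y0 ((p5t w y0 : ℂ) + s)).re ^ 2 / 2) +
          2 * (p5v w y0 ((p5t w y0 : ℂ) + s)).im ^ 2)) := by
  obtain ⟨-, -, -, hL, -, -, -⟩ := p5a_basic w hy
  obtain ⟨hq, -, hq2, -⟩ := P5M_q hy
  have hL0 : 0 < lam w y0 := by linarith
  have ht : 0 ≤ lam w y0 * ‖s‖ := mul_nonneg hL0.le (norm_nonneg _)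
  have h1 : ‖p5G m f ((y0 : ℂ) + p5v w y0 ((p5t w y0 : ℂ) + s))‖ ≤
      M * Real.exp (m * (√(1 + 60 * (lam w y0 * ‖s‖)) * (lam w y0 * |s.im|) / √(y0 * (1 - y0)))) := by
    refine p5z_G hm hf hfM (by positivity) ?_
    refine (p5b_abs w hy hs).trans (le_of_eq ?_)
    have hA : √(1 + 60 * (lam w y0 * ‖s‖)) ^ 2 = 1 + 60 * (lam w y0 * ‖s‖) :=
      Real.sq_sqrt (by linarith)
    rw [div_pow, mul_pow (√(1 + 60 * (lam w y0 * ‖s‖))), hA, hq2, mul_pow (lam w y0) |s.im|, sq_abs,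
      mul_pow (lam w y0) s.im]
    generalize y0 * (1 - y0) = P
    ring
  have h2 := P5M_one (p5v w y0 ((p5t w y0 : ℂ) + s)) ((P5M_v w hy hs).trans (by linarith)) r
  rw [p5F, norm_mul, Real.exp_add, ← mul_assoc]
  exact mul_le_mul h1 h2 (norm_nonneg _) (by positivity)

private theorem P5M_e1 {m N n L q η t τ : ℝ} (hL0 : 0 < L) (hq : 0 < q) (hη : 0 < η)
    (hη1 : η ≤ 1 / 100) (hN0 : 0 ≤ N) (hNL : N * L = n * q) (hmN : m ≤ (1 - 2 * η) * N)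
    (ht0 : 0 ≤ t) (ht2 : t ≤ 3 / 100 * η) (hτ0 : 0 ≤ τ) (hnτ0 : 0 ≤ n * τ) :
    m * (√(1 + 60 * t) * (L * τ) / q) ≤ (1 - η) * (n * τ) := by
  have h1 : √(1 + 60 * t) ≤ 1 + 30 * t := by
    rw [Real.sqrt_le_left (by linarith)]
    nlinarith
  have h1' : √(1 + 60 * t) * (L * τ) / q ≤ (1 + 30 * t) * (L * τ) / q := by
    apply div_le_div_of_nonneg_right _ hq.le
    exact mul_le_mul_of_nonneg_right h1 (mul_nonneg hL0.le hτ0)
  have h2 : m * (√(1 + 60 * t) * (L * τ) / q) ≤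
      ((1 - 2 * η) * N) * ((1 + 30 * t) * (L * τ) / q) := by
    refine mul_le_mul hmN h1' ?_ (mul_nonneg (by linarith) hN0)
    exact div_nonneg (mul_nonneg (Real.sqrt_nonneg _) (mul_nonneg hL0.le hτ0)) hq.le
  have h3 : ((1 - 2 * η) * N) * ((1 + 30 * t) * (L * τ) / q) =
      (1 - 2 * η) * (1 + 30 * t) * (n * τ) := by
    have h4 : ((1 - 2 * η) * N) * ((1 + 30 * t) * (L * τ) / q) =
        (1 - 2 * η) * (1 + 30 * t) * τ * (N * L) / q := by ring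
    rw [h4, hNL]
    field_simp
  rw [h3] at h2
  refine h2.trans (mul_le_mul_of_nonneg_right ?_ hnτ0)
  nlinarith

private theorem P5M_e2 {r N n L q η t τ vi : ℝ} (hL0 : 0 < L) (hq : 0 < q) (hqh : q ≤ 1 / 2)
    (hη : 0 < η) (hN0 : 0 ≤ N) (hNL : N * L = n * q) (hn0 : 0 ≤ n)
    (hr2 : r ≤ η * N / 4) (ht0 : 0 ≤ t) (ht : t ≤ 1 / 1000) (hτ0 : 0 ≤ τ) (hLτ : L * τ ≤ t)
    (him : |vi| ≤ (1 + 20 * t) * (L * τ)) :
    r * (2 * vi ^ 2) ≤ η * (n * τ) / 1000 := by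
  have hLτ0 : 0 ≤ L * τ := mul_nonneg hL0.le hτ0
  have h1 : |vi| ≤ 11 / 10 * (L * τ) := by
    refine him.trans (mul_le_mul_of_nonneg_right ?_ hLτ0)
    linarith
  have h2 : vi ^ 2 ≤ (11 / 10 * (L * τ)) ^ 2 := by
    rw [← sq_abs vi]
    exact pow_le_pow_left₀ (abs_nonneg _) h1 2
  have hηN : 0 ≤ η * N := mul_nonneg hη.le hN0
  have h3 : r * (2 * vi ^ 2) ≤ (η * N / 4) * (2 * (11 / 10 * (L * τ)) ^ 2) :=
    mul_le_mul hr2 (by linarith) (by positivity) (by linarith)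
  have h4 : (η * N / 4) * (2 * (11 / 10 * (L * τ)) ^ 2) =
      605 / 1000 * η * (N * L) * τ * (L * τ) := by ring
  rw [h4, hNL] at h3
  refine h3.trans ?_
  have hητ : 0 ≤ η * τ := mul_nonneg hη.le hτ0
  have h5 : n * q * (L * τ) ≤ n * (1 / 2) * (1 / 1000) := by
    apply mul_le_mul _ (hLτ.trans ht) hLτ0 (by positivity)
    exact mul_le_mul_of_nonneg_left hqh hn0
  have h6 : η * τ * (n * q * (L * τ)) ≤ η * τ * (n * (1 / 2) * (1 / 1000)) :=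
    mul_le_mul_of_nonneg_left h5 hητ
  have h7 : 0 ≤ η * τ * n := mul_nonneg hητ hn0
  nlinarith

private theorem P5M_e3 {r N n L q η t τ sg re vr : ℝ} (hL0 : 0 < L) (hqh : q ≤ 1 / 2)
    (hη : 0 < η) (hη1 : η ≤ 1 / 100) (hN0 : 0 ≤ N) (hNL : N * L = n * q) (hn0 : 0 ≤ n)
    (hr1 : η * N / 16 ≤ r) (hr0 : 0 ≤ r) (htd : t = L * sg) (hsg : 0 ≤ sg) (ht : t ≤ 1 / 1000)
    (hs1 : 15 / 1000 * η ≤ t) (hτ0 : 0 ≤ τ)
    (hnr : sg ≤ re + τ) (hre : L * re - 13 * t ^ 2 ≤ |vr|) :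
    η ^ 3 * N / 4000000 ≤ 999 / 1000 * (η * (n * τ)) + r * (vr ^ 2 / 2) := by
  have hηN : 0 ≤ η * N := mul_nonneg hη.le hN0
  have hr0' : 0 ≤ r * (vr ^ 2 / 2) := by positivity
  have hητ : 0 ≤ η * (n * τ) := mul_nonneg hη.le (mul_nonneg hn0 hτ0)
  by_cases hc : sg / 2 ≤ τ
  · have h1 : N * t ≤ n * τ := by
      have h2 : N * t = (N * L) * sg := by rw [htd]; ring
      rw [h2, hNL]
      calc n * q * sg ≤ n * (1 / 2) * sg := by gcongr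
        _ = n * (sg / 2) := by ring
        _ ≤ n * τ := by gcongr
    have h3 : η * (N * (15 / 1000 * η)) ≤ η * (n * τ) := by
      refine mul_le_mul_of_nonneg_left (le_trans ?_ h1) hη.le
      exact mul_le_mul_of_nonneg_left hs1 hN0
    have h4 : η ^ 3 * N / 4000000 ≤ 999 / 1000 * (η * (N * (15 / 1000 * η))) := by
      have h5 : η ^ 3 * N = (η * N) * η * η := by ring
      have h7 : 0 ≤ η * N * η := mul_nonneg hηN hη.le
      have h6 : (η * N) * η * η ≤ (η * N) * η * (1 / 100) := mul_le_mul_of_nonneg_left hη1 h7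
      nlinarith
    linarith
  · have hc' : τ < sg / 2 := lt_of_not_ge hc
    have h1 : sg / 2 ≤ re := by linarith
    have h2 : t / 4 ≤ |vr| := by
      have h3 : t / 2 ≤ L * re := by
        have : t / 2 = L * (sg / 2) := by rw [htd]; ring
        rw [this]
        exact mul_le_mul_of_nonneg_left h1 hL0.le
      have ht0 : 0 ≤ t := by rw [htd]; exact mul_nonneg hL0.le hsg
      nlinarith
    have ht0 : 0 ≤ t := by rw [htd]; exact mul_nonneg hL0.le hsg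
    have h3 : (t / 4) ^ 2 ≤ vr ^ 2 := by
      rw [← sq_abs vr]
      exact pow_le_pow_left₀ (by linarith) h2 2
    have h4 : (15 / 1000 * η) ^ 2 ≤ t ^ 2 := pow_le_pow_left₀ (by positivity) hs1 2
    have h5 : (η * N / 16) * ((15 / 1000 * η) ^ 2 / 16 / 2) ≤ r * (vr ^ 2 / 2) := by
      apply mul_le_mul hr1 _ (by positivity) hr0
      linarith
    have h6 : (η * N / 16) * ((15 / 1000 * η) ^ 2 / 16 / 2) = η ^ 3 * N * (225 / 1000000 / 512) := by ring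
    rw [h6] at h5
    have h7 : 0 ≤ η ^ 3 * N := mul_nonneg (by positivity) hN0
    nlinarith

theorem p5m_circle (w : List Bool) {n : ℕ} {y0 η : ℝ} {m r : ℕ} {M : ℝ} {f : ℂ[X]} (hn : 1 ≤ n)
    (hy : y0 ∈ Icc (1 / 3 : ℝ) (2 / 3)) (hη : 0 < η) (hη1 : η ≤ 1 / 100) (hm : 1 ≤ m)
    (hmN : (m : ℝ) ≤ (1 - 2 * η) * NN n w y0)
    (hr1 : η * NN n w y0 / 16 ≤ r) (hr2 : (r : ℝ) ≤ η * NN n w y0 / 4)
    (hf : f.natDegree ≤ m - 1) (hM : 0 ≤ M) (hfM : ∀ z : ℂ, ‖z‖ = 1 → ‖f.eval z‖ ≤ M)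
    {s : ℂ} (hs1 : 15 / 1000 * η ≤ lam w y0 * ‖s‖) (hs2 : lam w y0 * ‖s‖ ≤ 3 / 100 * η) :
    ‖p5F w y0 m r f ((p5t w y0 : ℂ) + s)‖ * Real.exp (-((n - 1 : ℝ) * |s.im|)) ≤
      3 * M * Real.exp (-(η ^ 3 * NN n w y0 / 4000000)) := by
  obtain ⟨-, -, -, hL, -, -, -⟩ := p5a_basic w hy
  obtain ⟨hq, hqh, hq2, -⟩ := P5M_q hy
  obtain ⟨hN0, hNL⟩ := P5M_NN w (n := n) hy
  have hL0 : 0 < lam w y0 := by linarith
  have hs : lam w y0 * ‖s‖ ≤ 1 / 1000 := by linarith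
  have hF := P5M_F (n := n) w (r := r) hy hm hf hM hfM hs
  have him := p5b_im w hy hs
  have hre := P5M_re w hy hs
  have hnr : ‖s‖ ≤ |s.re| + |s.im| := Complex.norm_le_abs_re_add_abs_im s
  have hτs : |s.im| ≤ ‖s‖ := Complex.abs_im_le_norm s
  have hn0 : (0 : ℝ) ≤ n := Nat.cast_nonneg _
  have hτ0 : 0 ≤ |s.im| := abs_nonneg _
  have ht0 : 0 ≤ lam w y0 * ‖s‖ := mul_nonneg hL0.le (norm_nonneg _)
  have hLτ : lam w y0 * |s.im| ≤ lam w y0 * ‖s‖ := mul_le_mul_of_nonneg_left hτs hL0.le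
  have e1 := P5M_e1 hL0 hq hη hη1 hN0 hNL hmN ht0 hs2 hτ0 (mul_nonneg hn0 hτ0)
  have e2 := P5M_e2 hL0 hq hqh hη hN0 hNL hn0 hr2 ht0 hs hτ0 hLτ him
  have e3 := P5M_e3 hL0 hqh hη hη1 hN0 hNL hn0 hr1 (Nat.cast_nonneg r) rfl (norm_nonneg s) hs hs1
    hτ0 hnr hre
  have e4 : Real.exp |s.im| ≤ 3 := by
    have h1 : |s.im| ≤ 1 := by
      have h2 : 2 / 9 * ‖s‖ ≤ lam w y0 * ‖s‖ := mul_le_mul_of_nonneg_right hL (norm_nonneg _)
      linarith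
    calc Real.exp |s.im| ≤ Real.exp 1 := Real.exp_le_exp.2 h1
      _ ≤ 3 := by linarith [Real.exp_one_lt_d9]
  refine (mul_le_mul_of_nonneg_right hF (Real.exp_pos _).le).trans ?_
  rw [mul_assoc, ← Real.exp_add]
  have e5 : Real.exp (m * (√(1 + 60 * (lam w y0 * ‖s‖)) * (lam w y0 * |s.im|) / √(y0 * (1 - y0))) +
        r * (-((p5v w y0 ((p5t w y0 : ℂ) + s)).re ^ 2 / 2) +
          2 * (p5v w y0 ((p5t w y0 : ℂ) + s)).im ^ 2) + -((n - 1 : ℝ) * |s.im|)) ≤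
      Real.exp (|s.im| + -(η ^ 3 * NN n w y0 / 4000000)) := by
    apply Real.exp_le_exp.2
    have e6 : (r : ℝ) * (-((p5v w y0 ((p5t w y0 : ℂ) + s)).re ^ 2 / 2) +
          2 * (p5v w y0 ((p5t w y0 : ℂ) + s)).im ^ 2) =
        r * (2 * (p5v w y0 ((p5t w y0 : ℂ) + s)).im ^ 2) -
        r * ((p5v w y0 ((p5t w y0 : ℂ) + s)).re ^ 2 / 2) := by ring
    have e7 : ((n : ℝ) - 1) * |s.im| = n * |s.im| - |s.im| := by ring
    have e8 : (1 - η) * (n * |s.im|) = n * |s.im| - η * (n * |s.im|) := by ring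
    rw [e6, e7]
    rw [e8] at e1
    linarith
  refine (mul_le_mul_of_nonneg_left e5 hM).trans ?_
  rw [Real.exp_add]
  have e9 : 0 ≤ M * Real.exp (-(η ^ 3 * NN n w y0 / 4000000)) :=
    mul_nonneg hM (Real.exp_pos _).le
  calc M * (Real.exp |s.im| * Real.exp (-(η ^ 3 * NN n w y0 / 4000000)))
      = Real.exp |s.im| * (M * Real.exp (-(η ^ 3 * NN n w y0 / 4000000))) := by ring
    _ ≤ 3 * (M * Real.exp (-(η ^ 3 * NN n w y0 / 4000000))) := mul_le_mul_of_nonneg_right e4 e9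
    _ = 3 * M * Real.exp (-(η ^ 3 * NN n w y0 / 4000000)) := by ring

theorem p5m_real (w : List Bool) {n : ℕ} {y0 η : ℝ} {m r : ℕ} {M : ℝ} {f : ℂ[X]} (hn : 1 ≤ n)
    (hy : y0 ∈ Icc (1 / 3 : ℝ) (2 / 3)) (hη : 0 < η) (hη1 : η ≤ 1 / 100) (hm : 1 ≤ m)
    (hr1 : η * NN n w y0 / 16 ≤ r)
    (hf : f.natDegree ≤ m - 1) (hM : 0 ≤ M) (hfM : ∀ z : ℂ, ‖z‖ = 1 → ‖f.eval z‖ ≤ M)
    {s : ℝ} (hs1 : 1 / 100 * η ≤ lam w y0 * |s|) (hs2 : lam w y0 * |s| ≤ 3 / 100 * η) :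
    ‖p5F w y0 m r f ((p5t w y0 + s : ℝ) : ℂ)‖ ≤
      M * Real.exp (-(η ^ 3 * NN n w y0 / 4000000)) := by
  have hns : ‖(s : ℂ)‖ = |s| := by rw [Complex.norm_real, Real.norm_eq_abs]
  obtain ⟨hN0, hNL⟩ := P5M_NN w (n := n) hy
  obtain ⟨-, -, -, hL, -, -, -⟩ := p5a_basic w hy
  have hL0 : 0 < lam w y0 := by linarith
  have hs : lam w y0 * ‖(s : ℂ)‖ ≤ 1 / 1000 := by rw [hns]; linarith
  have hF := P5M_F (n := n) w (r := r) hy hm hf hM hfM hs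
  have him := p5b_im w hy hs
  have hre := P5M_re w hy hs
  rw [Complex.ofReal_im, abs_zero, mul_zero, mul_zero] at him
  rw [Complex.ofReal_re, hns] at hre
  rw [Complex.ofReal_im, abs_zero, mul_zero, mul_zero, zero_div, mul_zero, zero_add] at hF
  rw [Complex.ofReal_add]
  set v := p5v w y0 ((p5t w y0 : ℂ) + (s : ℂ)) with hvd
  have hv0 : v.im = 0 := abs_nonpos_iff.1 him
  refine hF.trans ?_
  gcongr
  rw [hv0]
  set t := lam w y0 * |s| with htd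
  have ht0 : 0 ≤ t := mul_nonneg hL0.le (abs_nonneg _)
  have h2 : t / 2 ≤ |v.re| := by nlinarith
  have h3 : (t / 2) ^ 2 ≤ v.re ^ 2 := by
    rw [← sq_abs v.re]
    exact pow_le_pow_left₀ (by linarith) h2 2
  have h4 : (1 / 100 * η) ^ 2 ≤ t ^ 2 := pow_le_pow_left₀ (by positivity) hs1 2
  have h5 : (η * NN n w y0 / 16) * ((1 / 100 * η) ^ 2 / 4 / 2) ≤ r * (v.re ^ 2 / 2) := by
    apply mul_le_mul hr1 _ (by positivity) (Nat.cast_nonneg _)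
    linarith
  have h6 : (η * NN n w y0 / 16) * ((1 / 100 * η) ^ 2 / 4 / 2) =
      η ^ 3 * NN n w y0 * (1 / 10000 / 128) := by ring
  rw [h6] at h5
  have h7 : 0 ≤ η ^ 3 * NN n w y0 := mul_nonneg (by positivity) hN0
  nlinarith

end Pool.H52.MQ
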