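import Pool.Agent.H44.P5.K

/-! Row P5N: contour lemma.  Uses P5K.  F analytic on ball(t0,R), circle zeta(psi) = circleMap t0 S psi, psi in [0,2pi].
(1) primitives: h entire => F h has a primitive g on the ball (DifferentiableOn.isExactOn_ball or the like in Mathlib.Analysis.Complex.HasPrimitives), so by the fundamental theorem of calculus
    int_{t0-S}^{t0+S} F h dphi = g(t0+S) - g(t0-S) = int_pi^{2pi} F(zeta) h(zeta) zeta' dpsi (lower arc) = - int_0^pi F(zeta) h(zeta) zeta' dpsi (upper arc).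
    Use h = p5Em on the lower arc and h = p5Ep on the upper arc (p5k_split).
(2) Cauchy: |th-t0| < S, th in [0,pi]: circle integral of F(zeta) sin zeta/(cos th - cos zeta) = 2 pi i F(th): F(zeta) g(zeta)/(zeta-th) with g = - sin zeta / dslope cos th zeta, g(th) = 1
    (dslope cos th is entire: Complex.differentiableOn_dslope; nonzero on the ball since cos zeta = cos th only for zeta = th there: Re zeta in (0,pi), Complex.cos_eq_cos_iff; deriv cos th = - sin th /= 0).
    |th-t0| > S: the function is analytic on the closed disc, the integral is 0.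
(3) 2 pi p5S = int_lower F Em - int_upper F Ep,  - i * circle integral = int_lower F (-i sin/(cos th - cos)) - int_upper F (i sin/(cos th - cos)), so
    2 pi (F(th) or 0) - 2 pi p5S = int_lower F (rem_lower) - int_upper F (rem_upper), each integrand <= |F| * 2 exp(-(n-1)|Im|)/rho * S <= 2 eps S/rho: total <= 2 pi * 2 eps S/rho. -/

open MeasureTheory Set Polynomial
open scoped ENNReal ComplexConjugate

namespace Pool.H52.MQ

/-- points of the circle lie in the ball -/
theorem p5n_mem {t0 R S : ℝ} (hS : 0 < S) (hSR : S < R) (ψ : ℝ) :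
    circleMap (t0 : ℂ) S ψ ∈ Metric.ball (t0 : ℂ) R := by
  have h := circleMap_mem_closedBall (t0 : ℂ) hS.le ψ
  exact Metric.closedBall_subset_ball hSR h

/-- points of the diameter lie in the ball -/
theorem p5n_memr {t0 R S : ℝ} (hS : 0 < S) (hSR : S < R) {x : ℝ} (hx : x ∈ uIcc (t0 - S) (t0 + S)) :
    (x : ℂ) ∈ Metric.ball (t0 : ℂ) R := by
  rw [uIcc_of_le (by linarith)] at hx
  rw [Metric.mem_ball, dist_eq_norm, ← Complex.ofReal_sub, Complex.norm_real, Real.norm_eq_abs]
  refine lt_of_le_of_lt ?_ hSR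
  rw [abs_le]
  constructor <;> linarith [hx.1, hx.2]

/-- contour shift: the diameter and the two half circles -/
theorem p5n_shift {H : ℂ → ℂ} {t0 R S : ℝ} (hS : 0 < S) (hSR : S < R)
    (hH : DifferentiableOn ℂ H (Metric.ball (t0 : ℂ) R)) :
    (∫ φ in (t0 - S)..(t0 + S), H φ) =
      ∫ ψ in Real.pi..(2 * Real.pi), (circleMap 0 S ψ * Complex.I) * H (circleMap t0 S ψ) ∧
    (∫ φ in (t0 - S)..(t0 + S), H φ) =
      -∫ ψ in (0 : ℝ)..Real.pi, (circleMap 0 S ψ * Complex.I) * H (circleMap t0 S ψ) := by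
  obtain ⟨g, hg⟩ := hH.isExactOn_ball
  have hcont : ContinuousOn H (Metric.ball (t0 : ℂ) R) := hH.continuousOn
  have e1 : (∫ φ in (t0 - S)..(t0 + S), H φ) = g ((t0 + S : ℝ) : ℂ) - g ((t0 - S : ℝ) : ℂ) := by
    refine intervalIntegral.integral_eq_sub_of_hasDerivAt (f := fun x : ℝ => g (x : ℂ)) ?_ ?_
    · intro x hx
      exact (hg _ (p5n_memr hS hSR hx)).comp_ofReal
    · apply ContinuousOn.intervalIntegrable
      exact hcont.comp Complex.continuous_ofReal.continuousOn (fun x hx => p5n_memr hS hSR hx)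
  have hcc : Continuous fun ψ : ℝ => (circleMap 0 S ψ * Complex.I) * H (circleMap t0 S ψ) := by
    refine ((continuous_circleMap 0 S).mul continuous_const).mul ?_
    exact hcont.comp_continuous (continuous_circleMap _ _) (fun ψ => p5n_mem hS hSR ψ)
  have e2 : ∀ a b : ℝ, (∫ ψ in a..b, (circleMap 0 S ψ * Complex.I) * H (circleMap t0 S ψ)) =
      g (circleMap t0 S b) - g (circleMap t0 S a) := by
    intro a b
    refine intervalIntegral.integral_eq_sub_of_hasDerivAt
      (f := fun ψ : ℝ => g (circleMap (t0 : ℂ) S ψ)) ?_ (hcc.intervalIntegrable _ _)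
    intro x _
    have h1 := (hg _ (p5n_mem hS hSR x))
    have h2 := h1.scomp x (hasDerivAt_circleMap (t0 : ℂ) S x)
    simpa [smul_eq_mul, Function.comp_def] using h2
  have h0 : circleMap (t0 : ℂ) S 0 = ((t0 + S : ℝ) : ℂ) := by
    unfold circleMap
    simp
  have hp : circleMap (t0 : ℂ) S Real.pi = ((t0 - S : ℝ) : ℂ) := by
    unfold circleMap
    rw [Complex.exp_pi_mul_I]
    push_cast
    ring
  have h2p : circleMap (t0 : ℂ) S (2 * Real.pi) = ((t0 + S : ℝ) : ℂ) := by
    unfold circleMap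
    push_cast
    rw [Complex.exp_two_pi_mul_I]
    ring
  rw [e1, e2, e2, h0, hp, h2p]
  constructor
  · rfl
  · ring

/-- differentiability of the two parts of the kernel -/
theorem p5n_Em (n : ℕ) (θ : ℝ) : Differentiable ℂ (p5Em n θ) := by
  unfold p5Em
  refine (differentiable_const _).add ((differentiable_const _).mul ?_)
  refine Differentiable.fun_sum fun k _ => ?_
  refine (differentiable_const _).mul ?_
  exact (((differentiable_const _).mul differentiable_id).mul (differentiable_const _)).neg.cexp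

theorem p5n_Ep (n : ℕ) (θ : ℝ) : Differentiable ℂ (p5Ep n θ) := by
  unfold p5Ep
  refine (differentiable_const _).add ((differentiable_const _).mul ?_)
  refine Differentiable.fun_sum fun k _ => ?_
  refine (differentiable_const _).mul ?_
  exact (((differentiable_const _).mul differentiable_id).mul (differentiable_const _)).cexp

theorem p5n_core {F : ℂ → ℂ} {t0 R S ε ρ : ℝ} {n : ℕ} {θ : ℝ} (hn : 1 ≤ n) (hS : 0 < S)
    (hSR : S < R) (hF : DifferentiableOn ℂ F (Metric.ball (t0 : ℂ) R))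
    (hρ : 0 < ρ) (hc : ∀ ζ : ℂ, ‖ζ - t0‖ = S → ρ ≤ ‖Complex.cos ζ - (Real.cos θ : ℂ)‖)
    (hb : ∀ ζ : ℂ, ‖ζ - t0‖ = S → ‖F ζ‖ * Real.exp (-((n - 1 : ℝ) * |ζ.im|)) ≤ ε) (V : ℂ)
    (hV : (∮ ζ in C((t0 : ℂ), S), F ζ * (Complex.sin ζ / ((Real.cos θ : ℂ) - Complex.cos ζ))) =
      2 * Real.pi * Complex.I * V) :
    ‖p5S F t0 S n θ - V‖ ≤ 2 * S * ε / ρ := by
  have hpi := Real.pi_pos
  -- circle points
  have hcS : ∀ ψ : ℝ, ‖circleMap (t0 : ℂ) S ψ - t0‖ = S := by
    intro ψ
    rw [circleMap_sub_center, norm_circleMap_zero, abs_of_pos hS]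
  have hne : ∀ ψ : ℝ, (Real.cos θ : ℂ) - Complex.cos (circleMap (t0 : ℂ) S ψ) ≠ 0 := by
    intro ψ h0
    have h1 := hc _ (hcS ψ)
    rw [← norm_neg, neg_sub, h0, norm_zero] at h1
    linarith
  have hFc : Continuous fun ψ : ℝ => F (circleMap (t0 : ℂ) S ψ) :=
    hF.continuousOn.comp_continuous (continuous_circleMap _ _) (fun ψ => p5n_mem hS hSR ψ)
  have hdc : Continuous fun ψ : ℝ => circleMap 0 S ψ * Complex.I :=
    (continuous_circleMap 0 S).mul continuous_const
  have hKc : Continuous fun ψ : ℝ => Complex.sin (circleMap (t0 : ℂ) S ψ) /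
      ((Real.cos θ : ℂ) - Complex.cos (circleMap (t0 : ℂ) S ψ)) :=
    (Complex.continuous_sin.comp (continuous_circleMap _ _)).div
      (continuous_const.sub (Complex.continuous_cos.comp (continuous_circleMap _ _))) hne
  have hEm : Continuous fun ψ : ℝ => p5Em n θ (circleMap (t0 : ℂ) S ψ) :=
    (p5n_Em n θ).continuous.comp (continuous_circleMap _ _)
  have hEp : Continuous fun ψ : ℝ => p5Ep n θ (circleMap (t0 : ℂ) S ψ) :=
    (p5n_Ep n θ).continuous.comp (continuous_circleMap _ _)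
  have s1 := (p5n_shift hS hSR (hF.mul (p5n_Em n θ).differentiableOn)).1
  have s2 := (p5n_shift hS hSR (hF.mul (p5n_Ep n θ).differentiableOn)).2
  simp only [Pi.mul_apply] at s1 s2
  -- the truncated kernel integral
  have hS2 : (∫ φ in (t0 - S)..(t0 + S), F φ * p5K n θ φ) =
      (∫ ψ in Real.pi..(2 * Real.pi), (circleMap 0 S ψ * Complex.I) *
        (F (circleMap t0 S ψ) * p5Em n θ (circleMap t0 S ψ))) -
      ∫ ψ in (0 : ℝ)..Real.pi, (circleMap 0 S ψ * Complex.I) *
        (F (circleMap t0 S ψ) * p5Ep n θ (circleMap t0 S ψ)) := by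
    have hi : ∀ E : ℂ → ℂ, Differentiable ℂ E → IntervalIntegrable (fun φ : ℝ => F φ * E φ)
        volume (t0 - S) (t0 + S) := by
      intro E hE
      apply ContinuousOn.intervalIntegrable
      exact (hF.continuousOn.comp Complex.continuous_ofReal.continuousOn
        (fun x hx => p5n_memr hS hSR hx)).mul
        (hE.continuous.comp Complex.continuous_ofReal).continuousOn
    have hsum : (∫ φ in (t0 - S)..(t0 + S), F φ * p5K n θ φ) =
        (∫ φ in (t0 - S)..(t0 + S), F φ * p5Em n θ φ) +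
        ∫ φ in (t0 - S)..(t0 + S), F φ * p5Ep n θ φ := by
      rw [← intervalIntegral.integral_add (hi _ (p5n_Em n θ)) (hi _ (p5n_Ep n θ))]
      refine intervalIntegral.integral_congr fun φ _ => ?_
      rw [p5k_split]
      ring
    rw [hsum, s1, s2]
    ring
  -- the circle integral
  have hV2 : (∫ ψ in (0 : ℝ)..(2 * Real.pi), (circleMap 0 S ψ * Complex.I) *
      (F (circleMap t0 S ψ) * (Complex.sin (circleMap (t0 : ℂ) S ψ) /
      ((Real.cos θ : ℂ) - Complex.cos (circleMap (t0 : ℂ) S ψ))))) =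
      2 * Real.pi * Complex.I * V := by
    rw [← hV]
    unfold circleIntegral
    refine intervalIntegral.integral_congr fun φ _ => ?_
    simp only [deriv_circleMap, smul_eq_mul]
  have hcont1 : Continuous fun ψ : ℝ => (circleMap 0 S ψ * Complex.I) *
      (F (circleMap t0 S ψ) * (Complex.sin (circleMap (t0 : ℂ) S ψ) /
      ((Real.cos θ : ℂ) - Complex.cos (circleMap (t0 : ℂ) S ψ)))) := hdc.mul (hFc.mul hKc)
  have hcont2 : Continuous fun ψ : ℝ => -Complex.I * ((circleMap 0 S ψ * Complex.I) *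
      (F (circleMap t0 S ψ) * (Complex.sin (circleMap (t0 : ℂ) S ψ) /
      ((Real.cos θ : ℂ) - Complex.cos (circleMap (t0 : ℂ) S ψ))))) := continuous_const.mul hcont1
  have hcont4 : Continuous fun ψ : ℝ => Complex.I * ((circleMap 0 S ψ * Complex.I) *
      (F (circleMap t0 S ψ) * (Complex.sin (circleMap (t0 : ℂ) S ψ) /
      ((Real.cos θ : ℂ) - Complex.cos (circleMap (t0 : ℂ) S ψ))))) := continuous_const.mul hcont1
  have hcont3 : Continuous fun ψ : ℝ => (circleMap 0 S ψ * Complex.I) *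
      (F (circleMap t0 S ψ) * p5Em n θ (circleMap t0 S ψ)) := hdc.mul (hFc.mul hEm)
  have hcont5 : Continuous fun ψ : ℝ => (circleMap 0 S ψ * Complex.I) *
      (F (circleMap t0 S ψ) * p5Ep n θ (circleMap t0 S ψ)) := hdc.mul (hFc.mul hEp)
  rw [← intervalIntegral.integral_add_adjacent_intervals (b := Real.pi)
    (hcont1.intervalIntegrable _ _) (hcont1.intervalIntegrable _ _)] at hV2
  have hI2 : Complex.I * Complex.I = -1 := Complex.I_mul_I
  -- 2 pi V - 2 pi p5S
  have key : 2 * Real.pi * V - (∫ φ in (t0 - S)..(t0 + S), F φ * p5K n θ φ) =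
      (∫ ψ in Real.pi..(2 * Real.pi), (circleMap 0 S ψ * Complex.I) * (F (circleMap t0 S ψ) *
        (-Complex.I * Complex.sin (circleMap t0 S ψ) /
          ((Real.cos θ : ℂ) - Complex.cos (circleMap t0 S ψ)) - p5Em n θ (circleMap t0 S ψ)))) -
      ∫ ψ in (0 : ℝ)..Real.pi, (circleMap 0 S ψ * Complex.I) * (F (circleMap t0 S ψ) *
        (Complex.I * Complex.sin (circleMap t0 S ψ) /
          ((Real.cos θ : ℂ) - Complex.cos (circleMap t0 S ψ)) - p5Ep n θ (circleMap t0 S ψ))) := by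
    have a1 : (∫ ψ in Real.pi..(2 * Real.pi), (circleMap 0 S ψ * Complex.I) *
        (F (circleMap t0 S ψ) *
        (-Complex.I * Complex.sin (circleMap t0 S ψ) /
          ((Real.cos θ : ℂ) - Complex.cos (circleMap t0 S ψ)) - p5Em n θ (circleMap t0 S ψ)))) =
        -Complex.I * (∫ ψ in Real.pi..(2 * Real.pi), (circleMap 0 S ψ * Complex.I) *
      (F (circleMap t0 S ψ) * (Complex.sin (circleMap (t0 : ℂ) S ψ) /
      ((Real.cos θ : ℂ) - Complex.cos (circleMap (t0 : ℂ) S ψ))))) -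
        ∫ ψ in Real.pi..(2 * Real.pi), (circleMap 0 S ψ * Complex.I) *
        (F (circleMap t0 S ψ) * p5Em n θ (circleMap t0 S ψ)) := by
      rw [← intervalIntegral.integral_const_mul, ← intervalIntegral.integral_sub
        (hcont2.intervalIntegrable _ _) (hcont3.intervalIntegrable _ _)]
      refine intervalIntegral.integral_congr fun φ _ => ?_
      ring
    have a2 : (∫ ψ in (0 : ℝ)..Real.pi, (circleMap 0 S ψ * Complex.I) *
        (F (circleMap t0 S ψ) *
        (Complex.I * Complex.sin (circleMap t0 S ψ) /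
          ((Real.cos θ : ℂ) - Complex.cos (circleMap t0 S ψ)) - p5Ep n θ (circleMap t0 S ψ)))) =
        Complex.I * (∫ ψ in (0 : ℝ)..Real.pi, (circleMap 0 S ψ * Complex.I) *
      (F (circleMap t0 S ψ) * (Complex.sin (circleMap (t0 : ℂ) S ψ) /
      ((Real.cos θ : ℂ) - Complex.cos (circleMap (t0 : ℂ) S ψ))))) -
        ∫ ψ in (0 : ℝ)..Real.pi, (circleMap 0 S ψ * Complex.I) *
        (F (circleMap t0 S ψ) * p5Ep n θ (circleMap t0 S ψ)) := by
      rw [← intervalIntegral.integral_const_mul, ← intervalIntegral.integral_sub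
        (hcont4.intervalIntegrable _ _) (hcont5.intervalIntegrable _ _)]
      refine intervalIntegral.integral_congr fun φ _ => ?_
      ring
    rw [a1, a2, hS2]
    linear_combination Complex.I * hV2 + 2 * Real.pi * V * hI2
  have hbound : ∀ E : ℂ → ℂ, ∀ ψ : ℝ,
      ‖E (circleMap t0 S ψ)‖ ≤ 2 * Real.exp (-((n - 1 : ℝ) * |(circleMap (t0 : ℂ) S ψ).im|)) / ρ →
      ‖(circleMap 0 S ψ * Complex.I) * (F (circleMap t0 S ψ) * E (circleMap t0 S ψ))‖ ≤
        2 * S * ε / ρ := by
    intro E ψ hE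
    rw [norm_mul, norm_mul, norm_mul, Complex.norm_I, mul_one, norm_circleMap_zero,
      abs_of_pos hS]
    have h1 := hb _ (hcS ψ)
    have h2 : ‖F (circleMap t0 S ψ)‖ * ‖E (circleMap t0 S ψ)‖ ≤ 2 * ε / ρ := by
      calc ‖F (circleMap t0 S ψ)‖ * ‖E (circleMap t0 S ψ)‖
          ≤ ‖F (circleMap t0 S ψ)‖ *
            (2 * Real.exp (-((n - 1 : ℝ) * |(circleMap (t0 : ℂ) S ψ).im|)) / ρ) :=
            mul_le_mul_of_nonneg_left hE (norm_nonneg _)
        _ = 2 * (‖F (circleMap t0 S ψ)‖ *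
            Real.exp (-((n - 1 : ℝ) * |(circleMap (t0 : ℂ) S ψ).im|))) / ρ := by ring
        _ ≤ 2 * ε / ρ := by
            apply div_le_div_of_nonneg_right _ hρ.le
            linarith
    calc S * (‖F (circleMap t0 S ψ)‖ * ‖E (circleMap t0 S ψ)‖) ≤ S * (2 * ε / ρ) :=
          mul_le_mul_of_nonneg_left h2 hS.le
      _ = 2 * S * ε / ρ := by ring
  have him : ∀ ψ : ℝ, (circleMap (t0 : ℂ) S ψ).im = S * Real.sin ψ := by
    intro ψ
    have : circleMap (t0 : ℂ) S ψ = t0 + circleMap 0 S ψ := by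
      rw [← circleMap_sub_center (t0 : ℂ) S ψ]
      ring
    rw [this, Complex.add_im, Complex.ofReal_im, circleMap_zero_im, zero_add]
  have b1 := intervalIntegral.norm_integral_le_of_norm_le_const (a := Real.pi) (b := 2 * Real.pi)
    (C := 2 * S * ε / ρ)
    (f := fun ψ => (circleMap 0 S ψ * Complex.I) * (F (circleMap t0 S ψ) *
        (-Complex.I * Complex.sin (circleMap t0 S ψ) /
          ((Real.cos θ : ℂ) - Complex.cos (circleMap t0 S ψ)) - p5Em n θ (circleMap t0 S ψ)))) (by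
      intro ψ hψ
      rw [uIoc_of_le (by linarith)] at hψ
      refine hbound (fun ζ => -Complex.I * Complex.sin ζ /
          ((Real.cos θ : ℂ) - Complex.cos ζ) - p5Em n θ ζ) ψ ?_
      refine p5k_rem_lower hn θ hρ (hc _ (hcS ψ)) ?_
      rw [him]
      have h3 : Real.sin ψ ≤ 0 := by
        have h4 : Real.sin (ψ - 2 * Real.pi) ≤ 0 :=
          Real.sin_nonpos_of_nonpos_of_neg_pi_le (by linarith [hψ.2]) (by linarith [hψ.1])
        rwa [Real.sin_sub_two_pi] at h4
      exact mul_nonpos_of_nonneg_of_nonpos hS.le h3)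
  have b2 := intervalIntegral.norm_integral_le_of_norm_le_const (a := 0) (b := Real.pi)
    (C := 2 * S * ε / ρ)
    (f := fun ψ => (circleMap 0 S ψ * Complex.I) * (F (circleMap t0 S ψ) *
        (Complex.I * Complex.sin (circleMap t0 S ψ) /
          ((Real.cos θ : ℂ) - Complex.cos (circleMap t0 S ψ)) - p5Ep n θ (circleMap t0 S ψ)))) (by
      intro ψ hψ
      rw [uIoc_of_le hpi.le] at hψ
      refine hbound (fun ζ => Complex.I * Complex.sin ζ /
          ((Real.cos θ : ℂ) - Complex.cos ζ) - p5Ep n θ ζ) ψ ?_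
      refine p5k_rem_upper hn θ hρ (hc _ (hcS ψ)) ?_
      rw [him]
      exact mul_nonneg hS.le (Real.sin_nonneg_of_nonneg_of_le_pi hψ.1.le hψ.2))
  have h2pi : (2 * Real.pi : ℂ) ≠ 0 := by
    have : (Real.pi : ℂ) ≠ 0 := Complex.ofReal_ne_zero.2 hpi.ne'
    simpa using this
  have hfin : p5S F t0 S n θ - V = -(1 / (2 * Real.pi : ℂ)) *
      (2 * Real.pi * V - (∫ φ in (t0 - S)..(t0 + S), F φ * p5K n θ φ)) := by
    unfold p5S
    field_simp
    ring
  rw [hfin, norm_mul, key]
  have hn1 : ‖-(1 / (2 * Real.pi : ℂ))‖ = 1 / (2 * Real.pi) := by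
    rw [norm_neg, norm_div, norm_one, norm_mul, Complex.norm_real, Real.norm_eq_abs,
      abs_of_pos hpi, Complex.norm_ofNat]
  rw [hn1]
  have b3 := norm_sub_le (∫ ψ in Real.pi..(2 * Real.pi), (circleMap 0 S ψ * Complex.I) *
        (F (circleMap t0 S ψ) *
        (-Complex.I * Complex.sin (circleMap t0 S ψ) /
          ((Real.cos θ : ℂ) - Complex.cos (circleMap t0 S ψ)) - p5Em n θ (circleMap t0 S ψ))))
      (∫ ψ in (0 : ℝ)..Real.pi, (circleMap 0 S ψ * Complex.I) * (F (circleMap t0 S ψ) *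
        (Complex.I * Complex.sin (circleMap t0 S ψ) /
          ((Real.cos θ : ℂ) - Complex.cos (circleMap t0 S ψ)) - p5Ep n θ (circleMap t0 S ψ))))
  have e1 : |2 * Real.pi - Real.pi| = Real.pi := by
    rw [abs_of_nonneg (by linarith)]; ring
  have e2 : |Real.pi - 0| = Real.pi := by
    rw [abs_of_nonneg (by linarith)]; ring
  rw [e1] at b1
  rw [e2] at b2
  calc 1 / (2 * Real.pi) * _ ≤ 1 / (2 * Real.pi) * (2 * S * ε / ρ * Real.pi +
        2 * S * ε / ρ * Real.pi) := by
        apply mul_le_mul_of_nonneg_left _ (by positivity)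
        linarith
    _ = 2 * S * ε / ρ := by
        field_simp
        ring

/-- in the strip the cosine is injective against a real value -/
theorem p5n_inj {t0 R S θ : ℝ} (hSR : S < R) (hR0 : R ≤ t0)
    (hR1 : R ≤ Real.pi - t0) (hθ : θ ∈ Icc 0 Real.pi) {ζ : ℂ}
    (hζ : ζ ∈ Metric.closedBall (t0 : ℂ) S) (h : Complex.cos ζ = (Real.cos θ : ℂ)) :
    ζ = (θ : ℂ) := by
  have h1 : |ζ.re - t0| ≤ S := by
    have h2 := Complex.abs_re_le_norm (ζ - t0)
    rw [Complex.sub_re, Complex.ofReal_re] at h2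
    rw [Metric.mem_closedBall, dist_eq_norm] at hζ
    exact h2.trans hζ
  rw [abs_le] at h1
  have him : ζ.im = 0 := by
    rw [Complex.ofReal_cos, Complex.cos_eq_cos_iff] at h
    obtain ⟨k, hk | hk⟩ := h
    · have := congrArg Complex.im hk
      simpa using this.symm
    · have := congrArg Complex.im hk
      simp at this
      exact this
  have hre : ζ = ((ζ.re : ℝ) : ℂ) := by
    apply Complex.ext <;> simp [him]
  rw [hre, ← Complex.ofReal_cos, Complex.ofReal_inj] at h
  have h3 := Real.injOn_cos (x₁ := ζ.re) ⟨by linarith [h1.1], by linarith [h1.2]⟩ hθ h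
  rw [hre, h3]

theorem p5n_in {F : ℂ → ℂ} {t0 R S ε ρ : ℝ} {n : ℕ} {θ : ℝ} (hn : 1 ≤ n) (hS : 0 < S) (hSR : S < R)
    (hR0 : R ≤ t0) (hR1 : R ≤ Real.pi - t0) (hF : DifferentiableOn ℂ F (Metric.ball (t0 : ℂ) R))
    (hρ : 0 < ρ) (hc : ∀ ζ : ℂ, ‖ζ - t0‖ = S → ρ ≤ ‖Complex.cos ζ - (Real.cos θ : ℂ)‖)
    (hb : ∀ ζ : ℂ, ‖ζ - t0‖ = S → ‖F ζ‖ * Real.exp (-((n - 1 : ℝ) * |ζ.im|)) ≤ ε)
    (hθ : |θ - t0| < S) : ‖p5S F t0 S n θ - F θ‖ ≤ 2 * S * ε / ρ := by
  refine p5n_core hn hS hSR hF hρ hc hb (F θ) ?_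
  have hθ2 := abs_lt.1 hθ
  have hθI : θ ∈ Icc 0 Real.pi := ⟨by linarith [hθ2.1], by linarith [hθ2.2]⟩
  have hsin : 0 < Real.sin θ :=
    Real.sin_pos_of_pos_of_lt_pi (by linarith [hθ2.1]) (by linarith [hθ2.2])
  have hD : Differentiable ℂ (dslope Complex.cos (θ : ℂ)) := by
    rw [← differentiableOn_univ, Complex.differentiableOn_dslope Filter.univ_mem]
    exact Complex.differentiable_cos.differentiableOn
  have hDθ : dslope Complex.cos (θ : ℂ) (θ : ℂ) = -(Real.sin θ : ℂ) := by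
    rw [dslope_same, Complex.deriv_cos, Complex.ofReal_sin]
  have hD0 : ∀ ζ ∈ Metric.closedBall (t0 : ℂ) S, dslope Complex.cos (θ : ℂ) ζ ≠ 0 := by
    intro ζ hζ h0
    by_cases he : ζ = (θ : ℂ)
    · rw [he, hDθ] at h0
      have : (Real.sin θ : ℂ) = 0 := by simpa using h0
      exact hsin.ne' (Complex.ofReal_eq_zero.1 this)
    · rw [dslope_of_ne _ he, slope_def_field, div_eq_zero_iff] at h0
      rcases h0 with h0 | h0
      · refine he (p5n_inj hSR hR0 hR1 hθI hζ ?_)
        rw [Complex.ofReal_cos]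
        exact sub_eq_zero.1 h0
      · exact he (sub_eq_zero.1 h0)
  have hdiff : DifferentiableOn ℂ (fun ζ => F ζ * (-Complex.sin ζ / dslope Complex.cos (θ : ℂ) ζ))
      (Metric.closedBall (t0 : ℂ) S) := by
    refine (hF.mono (Metric.closedBall_subset_ball hSR)).mul ?_
    exact (Complex.differentiable_sin.neg.differentiableOn).div hD.differentiableOn hD0
  have hw : (θ : ℂ) ∈ Metric.ball (t0 : ℂ) S := by
    rw [Metric.mem_ball, dist_eq_norm, ← Complex.ofReal_sub, Complex.norm_real,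
      Real.norm_eq_abs]
    exact hθ
  have hC := hdiff.circleIntegral_sub_inv_smul hw
  have hval : F (θ : ℂ) * (-Complex.sin (θ : ℂ) / dslope Complex.cos (θ : ℂ) (θ : ℂ)) = F θ := by
    rw [hDθ, ← Complex.ofReal_sin, neg_div_neg_eq, div_self, mul_one]
    exact Complex.ofReal_ne_zero.2 hsin.ne'
  rw [hval, smul_eq_mul] at hC
  rw [← hC]
  refine circleIntegral.integral_congr hS.le ?_
  intro ζ hζ
  have hne : ζ ≠ (θ : ℂ) := by
    intro he
    rw [he, mem_sphere_iff_norm, ← Complex.ofReal_sub, Complex.norm_real, Real.norm_eq_abs] at hζ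
    linarith
  simp only [smul_eq_mul]
  rw [dslope_of_ne _ hne, slope_def_field]
  have h1 : ζ - (θ : ℂ) ≠ 0 := sub_ne_zero.2 hne
  have h2 : Complex.cos ζ - Complex.cos (θ : ℂ) ≠ 0 := by
    intro h0
    refine hne (p5n_inj hSR hR0 hR1 hθI (Metric.sphere_subset_closedBall hζ) ?_)
    rw [Complex.ofReal_cos]
    exact sub_eq_zero.1 h0
  have h3 : Complex.cos (θ : ℂ) - Complex.cos ζ ≠ 0 := by
    intro h0
    apply h2
    rw [← neg_sub, h0, neg_zero]
  rw [Complex.ofReal_cos]
  have h4 : Complex.sin ζ / (Complex.cos (θ : ℂ) - Complex.cos ζ) =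
      (ζ - (θ : ℂ))⁻¹ * (-Complex.sin ζ / ((Complex.cos ζ - Complex.cos (θ : ℂ)) / (ζ - (θ : ℂ)))) := by
    rw [← neg_sub (Complex.cos ζ), div_neg, div_div_eq_mul_div]
    field_simp
  rw [h4]
  ring

theorem p5n_out {F : ℂ → ℂ} {t0 R S ε ρ : ℝ} {n : ℕ} {θ : ℝ} (hn : 1 ≤ n) (hS : 0 < S) (hSR : S < R)
    (hR0 : R ≤ t0) (hR1 : R ≤ Real.pi - t0) (hF : DifferentiableOn ℂ F (Metric.ball (t0 : ℂ) R))
    (hρ : 0 < ρ) (hc : ∀ ζ : ℂ, ‖ζ - t0‖ = S → ρ ≤ ‖Complex.cos ζ - (Real.cos θ : ℂ)‖)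
    (hb : ∀ ζ : ℂ, ‖ζ - t0‖ = S → ‖F ζ‖ * Real.exp (-((n - 1 : ℝ) * |ζ.im|)) ≤ ε)
    (hθ0 : θ ∈ Icc 0 Real.pi) (hθ : S < |θ - t0|) : ‖p5S F t0 S n θ‖ ≤ 2 * S * ε / ρ := by
  have h := p5n_core hn hS hSR hF hρ hc hb 0 (by
    rw [mul_zero]
    have hdiff : DifferentiableOn ℂ
        (fun ζ => F ζ * (Complex.sin ζ / ((Real.cos θ : ℂ) - Complex.cos ζ)))
        (Metric.closedBall (t0 : ℂ) S) := by
      refine (hF.mono (Metric.closedBall_subset_ball hSR)).mul ?_
      refine (Complex.differentiable_sin.differentiableOn).div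
        ((differentiable_const _).sub Complex.differentiable_cos).differentiableOn ?_
      intro ζ hζ h0
      have h1 := p5n_inj hSR hR0 hR1 hθ0 hζ (sub_eq_zero.1 h0).symm
      rw [h1, Metric.mem_closedBall, dist_eq_norm, ← Complex.ofReal_sub, Complex.norm_real,
        Real.norm_eq_abs] at hζ
      linarith
    exact (hdiff.mono Metric.closure_ball_subset_closedBall).diffContOnCl.circleIntegral_eq_zero
      hS.le)
  rwa [sub_zero] at h

end Pool.H52.MQ
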