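import Pool.Agent.H44.P5.Defs

/-! Row P5Q: the truncation is a polynomial; comparison of two windows.  Mathlib only.
* p5q_poly: split the integral: p5S = sum_{k<n} c_k cos(k th), c_0 = (1/2pi) int 2 F, c_k = (1/2pi) int 4 F(phi) cos(k phi); cos(k th) = T_k(cos th)
  (Polynomial.Chebyshev.T_real_cos / T_complex_cos), cos th = 1 - 2x: P = sum C c_k * (T k).comp (1 - 2 X), natDegree <= n-1 < n.
* p5q_diff: the difference is (1/2pi) (int_{t0-S'}^{t0-S} + int_{t0+S}^{t0+S'}) F p5K, |p5K| <= 2 + 4(n-1) <= 4n for real phi: total <= (1/2pi) 2 (S'-S) delta 4n <= 2 n (S'-S) delta. -/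

open MeasureTheory Set Polynomial
open scoped ENNReal ComplexConjugate

namespace Pool.H52.MQ

private lemma P5Q_K_cont (n : ℕ) (θ : ℝ) : Continuous (fun φ : ℝ => p5K n θ φ) := by
  unfold p5K
  fun_prop

theorem p5q_poly {F : ℂ → ℂ} {t0 S : ℝ} {n : ℕ} (hn : 1 ≤ n) (hS : 0 ≤ S)
    (hF : ContinuousOn (fun φ : ℝ => F φ) (Icc (t0 - S) (t0 + S))) :
    ∃ P : ℂ[X], P.natDegree < n ∧
      ∀ θ : ℝ, P.eval (((1 - Real.cos θ) / 2 : ℝ) : ℂ) = p5S F t0 S n θ := by
  have hle : t0 - S ≤ t0 + S := by linarith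
  have hF' : ContinuousOn (fun φ : ℝ => F φ) (uIcc (t0 - S) (t0 + S)) := by rwa [uIcc_of_le hle]
  set a : ℂ := ∫ φ in (t0 - S)..(t0 + S), F φ with ha
  set b : ℕ → ℂ := fun k => ∫ φ in (t0 - S)..(t0 + S), F φ * Complex.cos (k * φ) with hb
  set c : ℂ := (1 / (2 * Real.pi) : ℂ) with hc
  refine ⟨C (c * (2 * a)) + ∑ k ∈ Finset.Ico 1 n,
    C (c * (4 * b k)) * (Polynomial.Chebyshev.T ℂ k).comp (1 - C 2 * X), ?_, ?_⟩
  · apply lt_of_le_of_lt _ (Nat.sub_lt hn one_pos)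
    refine (natDegree_add_le _ _).trans (max_le ((natDegree_C _).le.trans (Nat.zero_le _)) ?_)
    apply natDegree_sum_le_of_forall_le
    intro k hk
    rw [Finset.mem_Ico] at hk
    refine (natDegree_C_mul_le _ _).trans ?_
    rw [natDegree_comp]
    have h1 : (Polynomial.Chebyshev.T ℂ (k : ℤ)).natDegree = k := by
      rw [Polynomial.Chebyshev.natDegree_T]; simp
    have h2 : (1 - C (2 : ℂ) * X : ℂ[X]).natDegree ≤ 1 := by
      compute_degree
    rw [h1]
    calc k * (1 - C (2 : ℂ) * X : ℂ[X]).natDegree ≤ k * 1 := Nat.mul_le_mul_left k h2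
      _ ≤ n - 1 := by omega
  · intro θ
    rw [eval_add, eval_C, eval_finsetSum]
    have hev : ∀ k ∈ Finset.Ico 1 n, (C (c * (4 * b k)) * (Polynomial.Chebyshev.T ℂ (k : ℤ)).comp (1 - C 2 * X)).eval
        (((1 - Real.cos θ) / 2 : ℝ) : ℂ) = c * (4 * b k) * Complex.cos (k * θ) := by
      intro k _
      rw [eval_mul, eval_C, eval_comp]
      have h1 : (1 - C (2 : ℂ) * X : ℂ[X]).eval (((1 - Real.cos θ) / 2 : ℝ) : ℂ) = Complex.cos θ := by
        simp only [eval_sub, eval_one, eval_mul, eval_C, eval_X]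
        push_cast
        ring
      rw [h1, Polynomial.Chebyshev.T_complex_cos]
      simp
    rw [Finset.sum_congr rfl hev]
    unfold p5S
    rw [← hc]
    have hint : IntervalIntegrable (fun φ : ℝ => F φ) volume (t0 - S) (t0 + S) := hF'.intervalIntegrable
    have hintk : ∀ k : ℕ, IntervalIntegrable (fun φ : ℝ => F φ * Complex.cos (k * φ)) volume (t0 - S) (t0 + S) := by
      intro k
      refine (hF'.mul ?_).intervalIntegrable
      have : Continuous (fun φ : ℝ => Complex.cos (k * φ)) := by fun_prop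
      exact this.continuousOn
    have hK : (fun φ : ℝ => F φ * p5K n θ φ) = fun φ : ℝ => 2 * F φ +
        ∑ k ∈ Finset.Ico 1 n, (4 * (Real.cos (k * θ) : ℂ)) * (F φ * Complex.cos (k * φ)) := by
      funext φ
      unfold p5K
      rw [mul_add, Finset.mul_sum, Finset.mul_sum]
      congr 1
      · ring
      · refine Finset.sum_congr rfl fun k _ => ?_
        ring
    have hsum : IntervalIntegrable (fun φ : ℝ => ∑ k ∈ Finset.Ico 1 n,
        (4 * (Real.cos (k * θ) : ℂ)) * (F φ * Complex.cos (k * φ))) volume (t0 - S) (t0 + S) := by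
      refine (continuousOn_finset_sum _ fun k _ => ?_).intervalIntegrable
      refine continuousOn_const.mul (hF'.mul ?_)
      have : Continuous (fun φ : ℝ => Complex.cos (k * φ)) := by fun_prop
      exact this.continuousOn
    rw [hK, intervalIntegral.integral_add (hint.const_mul 2) hsum, intervalIntegral.integral_const_mul,
      intervalIntegral.integral_finset_sum (fun k _ => (hintk k).const_mul _)]
    rw [mul_add, Finset.mul_sum]
    congr 1
    refine Finset.sum_congr rfl fun k _ => ?_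
    rw [intervalIntegral.integral_const_mul]
    simp only [hb]
    push_cast
    ring

theorem p5q_diff {F : ℂ → ℂ} {t0 S S' δ : ℝ} {n : ℕ} (hn : 1 ≤ n) (hS : 0 ≤ S) (hSS : S ≤ S')
    (hF : ContinuousOn (fun φ : ℝ => F φ) (Icc (t0 - S') (t0 + S')))
    (hb : ∀ φ : ℝ, S ≤ |φ - t0| → |φ - t0| ≤ S' → ‖F φ‖ ≤ δ) (θ : ℝ) :
    ‖p5S F t0 S' n θ - p5S F t0 S n θ‖ ≤ 2 * n * (S' - S) * δ := by
  have hδ : 0 ≤ δ := by
    refine (norm_nonneg _).trans (hb (t0 + S) ?_ ?_)
    · rw [add_sub_cancel_left, abs_of_nonneg hS]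
    · rw [add_sub_cancel_left, abs_of_nonneg hS]; exact hSS
  have hn1 : (1 : ℝ) ≤ n := by exact_mod_cast hn
  have hKb : ∀ φ : ℝ, ‖p5K n θ φ‖ ≤ 4 * n := by
    intro φ
    unfold p5K
    have h1 : ‖∑ k ∈ Finset.Ico 1 n, (Real.cos (k * θ) : ℂ) * Complex.cos (k * φ)‖ ≤ (n : ℝ) - 1 := by
      refine (norm_sum_le _ _).trans ?_
      have h2 : ∀ k ∈ Finset.Ico 1 n, ‖(Real.cos (k * θ) : ℂ) * Complex.cos (k * φ)‖ ≤ 1 := by
        intro k _
        have e1 : Complex.cos ((k : ℂ) * (φ : ℂ)) = ((Real.cos (k * φ) : ℝ) : ℂ) := by push_cast; rfl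
        rw [e1, norm_mul, Complex.norm_real, Complex.norm_real, Real.norm_eq_abs, Real.norm_eq_abs]
        exact mul_le_one₀ (Real.abs_cos_le_one _) (abs_nonneg _) (Real.abs_cos_le_one _)
      refine (Finset.sum_le_sum h2).trans ?_
      rw [Finset.sum_const, Nat.card_Ico, nsmul_eq_mul, mul_one, Nat.cast_sub hn]
      simp
    calc ‖(2 : ℂ) + 4 * ∑ k ∈ Finset.Ico 1 n, (Real.cos (k * θ) : ℂ) * Complex.cos (k * φ)‖
        ≤ ‖(2 : ℂ)‖ + ‖4 * ∑ k ∈ Finset.Ico 1 n, (Real.cos (k * θ) : ℂ) * Complex.cos (k * φ)‖ := norm_add_le _ _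
      _ ≤ 2 + 4 * ((n : ℝ) - 1) := by
          rw [norm_mul]
          have e2 : ‖(2 : ℂ)‖ = 2 := by simp
          have e4 : ‖(4 : ℂ)‖ = 4 := by simp
          rw [e2, e4]
          linarith
      _ ≤ 4 * n := by linarith
  have hcont : ContinuousOn (fun φ : ℝ => F φ * p5K n θ φ) (Icc (t0 - S') (t0 + S')) :=
    hF.mul (P5Q_K_cont n θ).continuousOn
  have hii : ∀ a b : ℝ, a ∈ Icc (t0 - S') (t0 + S') → b ∈ Icc (t0 - S') (t0 + S') →
      IntervalIntegrable (fun φ : ℝ => F φ * p5K n θ φ) volume a b := by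
    intro a b ha hb'
    refine (hcont.mono ?_).intervalIntegrable
    exact (convex_Icc _ _).ordConnected.uIcc_subset ha hb'
  have m1 : t0 - S' ∈ Icc (t0 - S') (t0 + S') := ⟨le_rfl, by linarith⟩
  have m2 : t0 - S ∈ Icc (t0 - S') (t0 + S') := ⟨by linarith, by linarith⟩
  have m3 : t0 + S ∈ Icc (t0 - S') (t0 + S') := ⟨by linarith, by linarith⟩
  have m4 : t0 + S' ∈ Icc (t0 - S') (t0 + S') := ⟨by linarith, le_rfl⟩
  have hsplit : (∫ φ in (t0 - S')..(t0 + S'), F φ * p5K n θ φ) - ∫ φ in (t0 - S)..(t0 + S), F φ * p5K n θ φ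
      = (∫ φ in (t0 - S')..(t0 - S), F φ * p5K n θ φ) + ∫ φ in (t0 + S)..(t0 + S'), F φ * p5K n θ φ := by
    rw [← intervalIntegral.integral_add_adjacent_intervals (hii _ _ m1 m2) (hii _ _ m2 m4),
      ← intervalIntegral.integral_add_adjacent_intervals (hii _ _ m2 m3) (hii _ _ m3 m4)]
    ring
  have b1 : ‖∫ φ in (t0 - S')..(t0 - S), F φ * p5K n θ φ‖ ≤ δ * (4 * n) * |t0 - S - (t0 - S')| := by
    apply intervalIntegral.norm_integral_le_of_norm_le_const
    intro φ hφ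
    rw [uIoc_of_le (by linarith)] at hφ
    rw [norm_mul]
    refine mul_le_mul (hb φ ?_ ?_) (hKb φ) (norm_nonneg _) hδ
    · rw [abs_sub_comm]; refine le_trans ?_ (le_abs_self _); linarith [hφ.2]
    · rw [abs_le]; exact ⟨by linarith [hφ.1], by linarith [hφ.2]⟩
  have b2 : ‖∫ φ in (t0 + S)..(t0 + S'), F φ * p5K n θ φ‖ ≤ δ * (4 * n) * |t0 + S' - (t0 + S)| := by
    apply intervalIntegral.norm_integral_le_of_norm_le_const
    intro φ hφ
    rw [uIoc_of_le (by linarith)] at hφ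
    rw [norm_mul]
    refine mul_le_mul (hb φ ?_ ?_) (hKb φ) (norm_nonneg _) hδ
    · refine le_trans ?_ (le_abs_self _); linarith [hφ.1]
    · rw [abs_le]; exact ⟨by linarith [hφ.1], by linarith [hφ.2]⟩
  have e1 : t0 - S - (t0 - S') = S' - S := by ring
  have e2 : t0 + S' - (t0 + S) = S' - S := by ring
  rw [e1, abs_of_nonneg (by linarith)] at b1
  rw [e2, abs_of_nonneg (by linarith)] at b2
  unfold p5S
  rw [← mul_sub, hsplit, norm_mul]
  have hpi := Real.pi_gt_three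
  have hc : ‖(1 / (2 * Real.pi) : ℂ)‖ = 1 / (2 * Real.pi) := by
    have : (1 / (2 * Real.pi) : ℂ) = ((1 / (2 * Real.pi) : ℝ) : ℂ) := by push_cast; rfl
    rw [this, Complex.norm_real, Real.norm_eq_abs, abs_of_pos (by positivity)]
  rw [hc]
  have h3 : ‖(∫ φ in (t0 - S')..(t0 - S), F φ * p5K n θ φ) + ∫ φ in (t0 + S)..(t0 + S'), F φ * p5K n θ φ‖ ≤
      2 * (δ * (4 * n) * (S' - S)) := (norm_add_le _ _).trans (by linarith)
  have h4 : 0 ≤ δ * (4 * (n : ℝ)) * (S' - S) := mul_nonneg (by positivity) (by linarith)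
  calc 1 / (2 * Real.pi) * ‖(∫ φ in (t0 - S')..(t0 - S), F φ * p5K n θ φ) + ∫ φ in (t0 + S)..(t0 + S'), F φ * p5K n θ φ‖
      ≤ 1 / (2 * Real.pi) * (2 * (δ * (4 * n) * (S' - S))) := mul_le_mul_of_nonneg_left h3 (by positivity)
    _ = (δ * (4 * n) * (S' - S)) / Real.pi := by field_simp
    _ ≤ (δ * (4 * n) * (S' - S)) / 2 := by
        apply div_le_div_of_nonneg_left h4 (by norm_num) (by linarith)
    _ = 2 * n * (S' - S) * δ := by ring

end Pool.H52.MQ
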