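import Pool.Agent.H44.P5.B

/-! Row P5R: real geometry of the change of variables.  Uses P5A, P5B.
* p5r_win: s real, lam0|s| <= 1/1000.  Everything real: put Ur = D0^2 ((1-cos(th0+s))/2 - x0), y = y0 + Ur/(1+del Ur); (y : C) = y0 + p5v; |y-y0-lam0 s| <= 13 (lam0 s)^2 (p5a_v), so y in (0,1);
  gam w y = X: p5b_gam (real parts): AA w y = A0 + (rp-lp)(y-y0), DD w y = D0 + (rq-lq)(y-y0) /= 0.  0 < th0+s < pi: |s| <= 1/(1000 lam0) < sin th0 <= min(th0, pi-th0).
* p5r_inv: y in [0,1], x = gam w y in [0,1], th = arccos(1-2x), (1-cos th)/2 = x, U = D0^2 (x-x0) = D0 (y-y0)/DD w y (sba_diff), 1 + del U = (DD w y + (lq-rq)(y-y0))/DD w y = D0/DD w y, v = y-y0.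
* p5r_far: lam0|th-th0| >= 0.01 eta => |y-y0| >= 0.005 eta.  Say th >= th0 + s, s = 0.01 eta/lam0: y+ from p5r_win has y+ - y0 >= 0.01 eta - 13(0.01 eta)^2 >= 0.005 eta, and
  gam w y = (1-cos th)/2 >= (1-cos(th0+s))/2 = gam w y+ (cos is decreasing on [0,pi]), so y >= y+ (sba_mono).  The other side is symmetric.
* p5r_out: x in [0,1] not in cell w, th = arccos(1-2x): if lam0|th-th0| < 1/1000 then p5r_win with s = th-th0 gives y in (0,1) with gam w y = (1-cos th)/2 = x, so x in cell w (sba_image). -/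

open MeasureTheory Set Polynomial
open scoped ENNReal ComplexConjugate

namespace Pool.H52.MQ

/-- real version of p5U -/
private noncomputable def p5r_U (w : List Bool) (y0 θ : ℝ) : ℝ :=
  DD w y0 ^ 2 * ((1 - Real.cos θ) / 2 - gam w y0)

private theorem p5r_castU (w : List Bool) (y0 θ : ℝ) :
    p5U w y0 (θ : ℂ) = ((p5r_U w y0 θ : ℝ) : ℂ) := by
  unfold p5U p5r_U
  push_cast
  ring

private theorem p5r_castv (w : List Bool) (y0 θ : ℝ) :
    p5v w y0 (θ : ℂ) = ((p5r_U w y0 θ / (1 + p5d w y0 * p5r_U w y0 θ) : ℝ) : ℂ) := by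
  unfold p5v
  rw [p5r_castU]
  push_cast
  ring

theorem p5r_win (w : List Bool) {y0 : ℝ} (hy : y0 ∈ Icc (1 / 3 : ℝ) (2 / 3)) {s : ℝ}
    (hs : lam w y0 * |s| ≤ 1 / 1000) : ∃ y ∈ Ioo (0 : ℝ) 1,
      (y : ℂ) = (y0 : ℂ) + p5v w y0 ((p5t w y0 + s : ℝ) : ℂ) ∧
      gam w y = (1 - Real.cos (p5t w y0 + s)) / 2 ∧
      |y - y0 - lam w y0 * s| ≤ 13 * (lam w y0 * |s|) ^ 2 ∧
      0 < p5t w y0 + s ∧ p5t w y0 + s < Real.pi := by
  obtain ⟨b1, b2, b3, b4, b5, b6, b7⟩ := p5a_basic w hy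
  obtain ⟨t1, t2, t3, t4, t5⟩ := p5a_th w hy
  have hs' : lam w y0 * ‖(s : ℂ)‖ ≤ 1 / 1000 := by
    rw [Complex.norm_real, Real.norm_eq_abs]; exact hs
  have hv := p5a_v w hy hs'
  rw [← Complex.ofReal_add, Complex.norm_real, Real.norm_eq_abs] at hv
  obtain ⟨hv1, hv2⟩ := hv
  have hne : 1 + (p5d w y0 : ℂ) * p5U w y0 ((p5t w y0 + s : ℝ) : ℂ) ≠ 0 := by
    intro h0
    rw [h0, norm_zero] at hv2
    linarith
  obtain ⟨g1, g2⟩ := p5b_gam w hy hne
  rw [p5r_castv] at hv1 g1 g2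
  rw [p5r_castU] at g1
  set V : ℝ := p5r_U w y0 (p5t w y0 + s) / (1 + p5d w y0 * p5r_U w y0 (p5t w y0 + s)) with hV
  have g1' : (DD w y0 + ((rq w : ℝ) - lq w) * V) *
      (1 + p5d w y0 * p5r_U w y0 (p5t w y0 + s)) = DD w y0 := by exact_mod_cast g1
  have g2' : AA w y0 + ((rp w : ℝ) - lp w) * V = (DD w y0 + ((rq w : ℝ) - lq w) * V) *
      ((1 - Real.cos (p5t w y0 + s)) / 2) := by exact_mod_cast g2
  have hv1' : |V - lam w y0 * s| ≤ 13 * (lam w y0 * |s|) ^ 2 := by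
    rw [← Complex.ofReal_mul, ← Complex.ofReal_sub, Complex.norm_real, Real.norm_eq_abs] at hv1
    exact hv1
  have hl0 : 0 ≤ lam w y0 * |s| := mul_nonneg (by linarith) (abs_nonneg s)
  have hsq : 13 * (lam w y0 * |s|) ^ 2 ≤ 1 / 10 := by nlinarith
  have hls : |lam w y0 * s| ≤ 1 / 1000 := by
    rw [abs_mul, abs_of_nonneg (by linarith : 0 ≤ lam w y0)]; exact hs
  have hVb : |V| ≤ 1 / 5 := by
    have h1 : V = (V - lam w y0 * s) + lam w y0 * s := by ring
    rw [h1]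
    exact (abs_add_le _ _).trans (by linarith)
  rw [abs_le] at hVb
  have hsb : |s| < Real.sin (p5t w y0) := by
    refine lt_of_lt_of_le ?_ t5
    have h1 : 0 < lam w y0 := by linarith
    rw [lt_div_iff₀ (by positivity)]
    linarith
  have hs1 := abs_lt.mp (lt_of_lt_of_le hsb (Real.sin_le t1.le))
  have hs2 : |s| < Real.pi - p5t w y0 := by
    refine lt_of_lt_of_le hsb ?_
    rw [← Real.sin_pi_sub]
    exact Real.sin_le (by linarith)
  have hs3 := abs_lt.mp hs2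
  have eD : DD w (y0 + V) = DD w y0 + ((rq w : ℝ) - lq w) * V := by unfold DD; ring
  have eA : AA w (y0 + V) = AA w y0 + ((rp w : ℝ) - lp w) * V := by unfold AA; ring
  have nD : DD w (y0 + V) ≠ 0 := by
    intro h0
    rw [← eD, h0, zero_mul] at g1'
    linarith
  refine ⟨y0 + V, ⟨by linarith [hy.1, hVb.1], by linarith [hy.2, hVb.2]⟩, ?_, ?_, ?_,
    by linarith [hs1.1], by linarith [hs3.2]⟩
  · rw [p5r_castv, ← hV, Complex.ofReal_add]
  · unfold gam
    rw [eA, g2', ← eD]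
    field_simp
  · rw [show y0 + V - y0 - lam w y0 * s = V - lam w y0 * s by ring]
    exact hv1'

private theorem p5r_cos (w : List Bool) {y : ℝ} (hy1 : y ∈ Icc (0 : ℝ) 1) :
    Real.cos (Real.arccos (1 - 2 * gam w y)) = 1 - 2 * gam w y := by
  have h1 : gam w y ∈ Icc (0 : ℝ) 1 := sba_cell w (by rw [← sba_image]; exact ⟨y, hy1, rfl⟩)
  exact Real.cos_arccos (by linarith [h1.2]) (by linarith [h1.1])

theorem p5r_inv (w : List Bool) {y0 y : ℝ} (hy : y0 ∈ Icc (1 / 3 : ℝ) (2 / 3)) (hy1 : y ∈ Icc (0 : ℝ) 1) :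
    p5v w y0 ((Real.arccos (1 - 2 * gam w y) : ℝ) : ℂ) = (y : ℂ) - y0 := by
  have hy0 : y0 ∈ Icc (0 : ℝ) 1 := ⟨by linarith [hy.1], by linarith [hy.2]⟩
  have d0 := (sba_DD w hy0).1
  have d1 := (sba_DD w hy1).1
  have n0 : DD w y0 ≠ 0 := by linarith
  have n1 : DD w y ≠ 0 := by linarith
  have eU : p5r_U w y0 (Real.arccos (1 - 2 * gam w y)) = DD w y0 * (y - y0) / DD w y := by
    unfold p5r_U
    rw [p5r_cos w hy1, show (1 - (1 - 2 * gam w y)) / 2 - gam w y0 = gam w y - gam w y0 by ring,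
      sba_diff w hy1 hy0]
    field_simp
  have eD : DD w y = DD w y0 + ((rq w : ℝ) - lq w) * (y - y0) := by unfold DD; ring
  have e1 : 1 + p5d w y0 * p5r_U w y0 (Real.arccos (1 - 2 * gam w y)) = DD w y0 / DD w y := by
    rw [eU]
    unfold p5d
    field_simp
    rw [eD]
    ring
  rw [p5r_castv, e1, eU]
  rw [show DD w y0 * (y - y0) / DD w y / (DD w y0 / DD w y) = y - y0 by field_simp]
  push_cast
  rfl

theorem p5r_far (w : List Bool) {y0 y η : ℝ} (hy : y0 ∈ Icc (1 / 3 : ℝ) (2 / 3)) (hy1 : y ∈ Icc (0 : ℝ) 1)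
    (hη : 0 < η) (hη1 : η ≤ 1 / 100)
    (h : 1 / 100 * η ≤ lam w y0 * |Real.arccos (1 - 2 * gam w y) - p5t w y0|) :
    5 / 1000 * η ≤ |y - y0| := by
  obtain ⟨b1, b2, b3, b4, b5, b6, b7⟩ := p5a_basic w hy
  have hl : 0 < lam w y0 := by linarith
  have hcos := p5r_cos w hy1
  set th := Real.arccos (1 - 2 * gam w y) with hth
  have hth0 : 0 ≤ th := Real.arccos_nonneg _
  have hth1 : th ≤ Real.pi := Real.arccos_le_pi _
  set s : ℝ := 1 / 100 * η / lam w y0 with hsd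
  have hs0 : 0 < s := by positivity
  have hls : lam w y0 * s = 1 / 100 * η := by rw [hsd]; field_simp
  have hsq : 13 * (1 / 100 * η) ^ 2 ≤ 1 / 1000 * η := by nlinarith
  rcases le_total (p5t w y0) th with hc | hc
  · rw [abs_of_nonneg (by linarith)] at h
    have h2 : p5t w y0 + s ≤ th := by
      by_contra hcon
      push Not at hcon
      have : lam w y0 * (th - p5t w y0) < lam w y0 * s := mul_lt_mul_of_pos_left (by linarith) hl
      linarith
    obtain ⟨y', hy', -, g', e', p1, p2⟩ := p5r_win w hy (s := s)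
      (by rw [abs_of_pos hs0, hls]; linarith)
    rw [abs_of_pos hs0, hls] at e'
    have e1 := (abs_le.mp e').1
    have hcm : Real.cos th ≤ Real.cos (p5t w y0 + s) :=
      Real.cos_le_cos_of_nonneg_of_le_pi p1.le hth1 h2
    have hle : gam w y' ≤ gam w y := by linarith
    have hyy : y' ≤ y := ((sba_mono w).le_iff_le ⟨hy'.1.le, hy'.2.le⟩ hy1).mp hle
    rw [abs_of_nonneg (by linarith)]
    linarith
  · rw [abs_of_nonpos (by linarith)] at h
    have h2 : th ≤ p5t w y0 + -s := by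
      by_contra hcon
      push Not at hcon
      have : lam w y0 * (p5t w y0 - th) < lam w y0 * s := mul_lt_mul_of_pos_left (by linarith) hl
      linarith
    obtain ⟨y', hy', -, g', e', p1, p2⟩ := p5r_win w hy (s := -s)
      (by rw [abs_neg, abs_of_pos hs0, hls]; linarith)
    rw [abs_neg, abs_of_pos hs0, hls, mul_neg, hls] at e'
    have e1 := (abs_le.mp e').2
    have hcm : Real.cos (p5t w y0 + -s) ≤ Real.cos th :=
      Real.cos_le_cos_of_nonneg_of_le_pi hth0 p2.le h2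
    have hle : gam w y ≤ gam w y' := by linarith
    have hyy : y ≤ y' := ((sba_mono w).le_iff_le hy1 ⟨hy'.1.le, hy'.2.le⟩).mp hle
    rw [abs_of_nonpos (by linarith)]
    linarith

theorem p5r_out (w : List Bool) {y0 x : ℝ} (hy : y0 ∈ Icc (1 / 3 : ℝ) (2 / 3)) (hx : x ∈ Icc (0 : ℝ) 1)
    (hxc : x ∉ cell w) : 1 / 1000 ≤ lam w y0 * |Real.arccos (1 - 2 * x) - p5t w y0| := by
  by_contra hcon
  push Not at hcon
  obtain ⟨y, hy1, -, g, -⟩ := p5r_win w hy hcon.le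
  apply hxc
  rw [← sba_image]
  refine ⟨y, ⟨hy1.1.le, hy1.2.le⟩, ?_⟩
  rw [g, show p5t w y0 + (Real.arccos (1 - 2 * x) - p5t w y0) = Real.arccos (1 - 2 * x) by ring,
    Real.cos_arccos (by linarith [hx.2]) (by linarith [hx.1])]
  ring

end Pool.H52.MQ
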